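import Pool.Agent.Helper9.VI.Sys

/-!
# VI-EXP: the explicit invertible element

Setting: `B` a unital C*-algebra, `F`, `Z` orthogonal projections, `x ∈ F B F`, and `Z` contains
`N` orthogonal projections `e i` (`i : Fin N`) all equivalent to `f`, where
`∑ star (r i) * f * r i = F`, `r i * F = r i`.

PROOF. `e i = g i * star (g i)`, `star (g i) * g i = f`. Put `s = ∑ g i * r i`. Then
`star s * s = ∑_{i,j} star (r i) * star (g i) * g j * r j = ∑ star (r i) * f * r i = F`
(`star (g i) * g j = 0` for `i ≠ j`), `Z * s = s`, `s * F = s`, hence `F * s = F * Z * s = 0`,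
`s * Z = 0`, `x * s = 0`. For `t ≠ 0` put
`b = x + t • star s - t • s + t • (Z - s * star s) + (1 - F - Z)`,
`b' = -(t⁻¹) • star s + t⁻¹ • s + (t⁻¹)^2 • (s * x * star s) + t⁻¹ • (Z - s * star s) + (1 - F - Z)`;
`b * b' = 1 = b' * b` by the relations, and `b` tends to `x + 1 - F - Z` as `t → 0`.
-/

namespace Pool.Agent.Helper9.VI

open Filter Topology
open scoped ComplexOrder ENNReal NNReal

noncomputable section

/-- The algebra of the explicit inverse. -/
theorem explicit_algebra {B : Type} [Ring B] [Algebra ℂ B] {x s s' F P W V : B}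
    (hxs : x * s = 0) (hxW : x * W = 0) (hxV : x * V = 0)
    (hs'x : s' * x = 0) (hs's' : s' * s' = 0) (hs's : s' * s = F) (hs'W : s' * W = 0)
    (hs'V : s' * V = 0)
    (hss : s * s = 0) (hss' : s * s' = P) (hsW : s * W = 0) (hsV : s * V = 0)
    (hWx : W * x = 0) (hWs' : W * s' = 0) (hWs : W * s = 0) (hWW : W * W = W) (hWV : W * V = 0)
    (hVx : V * x = 0) (hVs' : V * s' = 0) (hVs : V * s = 0) (hVW : V * W = 0) (hVV : V * V = V)
    (hFx : F * x = x) (hxF : x * F = x) (hone : F + P + W + V = 1) (t t' : ℂ) (ht : t * t' = 1) :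
    (x + t • s' - t • s + t • W + V) *
      (-(t' • s') + t' • s + (t' ^ 2) • (s * x * s') + t' • W + V) = 1 ∧
    (-(t' • s') + t' • s + (t' ^ 2) • (s * x * s') + t' • W + V) *
      (x + t • s' - t • s + t • W + V) = 1 := by
  have ht2 : t * t' ^ 2 = t' := by rw [pow_two, ← mul_assoc, ht, one_mul]
  have ht' : t' * t = 1 := by rw [mul_comm, ht]
  have ht2' : t' ^ 2 * t = t' := by rw [mul_comm, ht2]
  have e1 : x * (s * x * s') = 0 := by rw [← mul_assoc, ← mul_assoc, hxs]; simp
  have e2 : s' * (s * x * s') = x * s' := by rw [← mul_assoc, ← mul_assoc, hs's, hFx]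
  have e3 : s * (s * x * s') = 0 := by rw [← mul_assoc, ← mul_assoc, hss]; simp
  have e4 : W * (s * x * s') = 0 := by rw [← mul_assoc, ← mul_assoc, hWs]; simp
  have e5 : V * (s * x * s') = 0 := by rw [← mul_assoc, ← mul_assoc, hVs]; simp
  have f1 : (s * x * s') * x = 0 := by rw [mul_assoc, hs'x, mul_zero]
  have f2 : (s * x * s') * s' = 0 := by rw [mul_assoc, hs's', mul_zero]
  have f3 : (s * x * s') * s = s * x := by rw [mul_assoc, hs's, mul_assoc, hxF]
  have f4 : (s * x * s') * W = 0 := by rw [mul_assoc, hs'W, mul_zero]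
  have f5 : (s * x * s') * V = 0 := by rw [mul_assoc, hs'V, mul_zero]
  constructor
  · simp only [mul_add, add_mul, sub_mul, mul_neg, smul_mul_assoc, mul_smul_comm, smul_add,
      smul_neg, smul_sub, smul_smul,
      hxs, hxW, hxV, hs's', hs's, hs'W, hs'V, hss, hss', hsW, hsV, hWs', hWs, hWW, hWV,
      hVs', hVs, hVW, hVV, e1, e2, e3, e4, e5, smul_zero, ht, ht', ht2, ht2', one_smul, neg_zero,
      sub_zero, add_zero, zero_add]
    rw [← hone]
    abel
  · simp only [mul_add, add_mul, mul_sub, neg_mul, smul_mul_assoc, mul_smul_comm, smul_add,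
      smul_neg, smul_sub, smul_smul,
      hs'x, hs's', hs's, hs'W, hs'V, hss, hss', hsW, hsV, hWx, hWs', hWs, hWW, hWV,
      hVx, hVs', hVs, hVW, hVV, f1, f2, f3, f4, f5, smul_zero, ht, ht', ht2, ht2', one_smul,
      neg_zero, zero_sub, add_zero, zero_add]
    rw [← hone]
    abel

theorem explicit_mem_closure {B : Type} [CStarAlgebra B] {x F Z f : B} {N : ℕ}
    (hF : IsStarProjection F) (hZ : IsStarProjection Z) (hf : IsStarProjection f)
    (hFZ : F * Z = 0) (hx : F * x * F = x) (r g : Fin N → B) (hr : ∀ i, r i * F = r i)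
    (hsum : ∑ i, star (r i) * f * r i = F) (hg : ∀ i, star (g i) * g i = f)
    (hgg : ∀ i j, i ≠ j → star (g i) * g j = 0) (hZg : ∀ i, Z * g i = g i) :
    x + 1 - F - Z ∈ closure {b : B | IsUnit b} := by
  have hFF : F * F = F := hF.isIdempotentElem
  have hZZ : Z * Z = Z := hZ.isIdempotentElem
  have hFs : star F = F := hF.isSelfAdjoint
  have hZs : star Z = Z := hZ.isSelfAdjoint
  have hZF : Z * F = 0 := by
    have := congrArg star hFZ
    rwa [star_mul, hFs, hZs, star_zero] at this
  set s : B := ∑ i, g i * r i with hs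
  have hs's : star s * s = F := by
    rw [hs, star_sum, Finset.sum_mul_sum, ← hsum]
    refine Finset.sum_congr rfl fun i _ => ?_
    rw [Finset.sum_eq_single i]
    · rw [star_mul, mul_assoc, ← mul_assoc (star (g i)), hg, ← mul_assoc]
    · intro j _ hj
      rw [star_mul, mul_assoc, ← mul_assoc (star (g i)), hgg i j (Ne.symm hj), zero_mul, mul_zero]
    · intro h
      exact absurd (Finset.mem_univ i) h
  have hZS : Z * s = s := by
    rw [hs, Finset.mul_sum]
    exact Finset.sum_congr rfl fun i _ => by rw [← mul_assoc, hZg]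
  have hSF : s * F = s := by
    rw [hs, Finset.sum_mul]
    exact Finset.sum_congr rfl fun i _ => by rw [mul_assoc, hr]
  have hFS : F * s = 0 := by rw [← hZS, ← mul_assoc, hFZ, zero_mul]
  have hSZ : s * Z = 0 := by rw [← hSF, mul_assoc, hFZ, mul_zero]
  have hxF : x * F = x := by
    conv_rhs => rw [← hx]
    conv_lhs => rw [← hx]
    rw [mul_assoc, hFF]
  have hFx : F * x = x := by
    conv_rhs => rw [← hx]
    conv_lhs => rw [← hx]
    rw [← mul_assoc, ← mul_assoc, hFF]
  have hxs : x * s = 0 := by rw [← hxF, mul_assoc, hFS, mul_zero]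
  have hss : s * s = 0 := by
    have : s * F * s = s * (F * s) := mul_assoc _ _ _
    rw [hSF, hFS, mul_zero] at this
    exact this
  have hS'Z : star s * Z = star s := by
    have := congrArg star hZS
    rwa [star_mul, hZs] at this
  have hFS' : F * star s = star s := by
    have := congrArg star hSF
    rwa [star_mul, hFs] at this
  have hS'F : star s * F = 0 := by
    have := congrArg star hFS
    rwa [star_mul, hFs, star_zero] at this
  have hZS' : Z * star s = 0 := by
    have := congrArg star hSZ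
    rwa [star_mul, hZs, star_zero] at this
  have hs'x : star s * x = 0 := by rw [← hFx, ← mul_assoc, hS'F, zero_mul]
  have hs's' : star s * star s = 0 := by
    have := congrArg star hss
    rwa [star_mul, star_zero] at this
  have hxZ : x * Z = 0 := by rw [← hxF, mul_assoc, hFZ, mul_zero]
  have hZx : Z * x = 0 := by rw [← hFx, ← mul_assoc, hZF, zero_mul]
  -- P = s * star s
  have hPs : s * star s * s = s := by rw [mul_assoc, hs's, hSF]
  have hs'P : star s * (s * star s) = star s := by rw [← mul_assoc, hs's, hFS']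
  have hsP : s * (s * star s) = 0 := by rw [← mul_assoc, hss, zero_mul]
  have hPs' : s * star s * star s = 0 := by rw [mul_assoc, hs's', mul_zero]
  have hZP : Z * (s * star s) = s * star s := by rw [← mul_assoc, hZS]
  have hPZ : s * star s * Z = s * star s := by rw [mul_assoc, hS'Z]
  have hPP : s * star s * (s * star s) = s * star s := by rw [← mul_assoc, hPs]
  have hFP : F * (s * star s) = 0 := by rw [← mul_assoc, hFS, zero_mul]
  have hPF : s * star s * F = 0 := by rw [mul_assoc, hS'F, mul_zero]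
  have hxP : x * (s * star s) = 0 := by rw [← mul_assoc, hxs, zero_mul]
  have hPx : s * star s * x = 0 := by rw [mul_assoc, hs'x, mul_zero]
  have key := fun t t' ht => explicit_algebra (x := x) (s := s) (s' := star s) (F := F)
    (P := s * star s) (W := Z - s * star s) (V := 1 - F - Z) hxs
    (by rw [mul_sub, hxZ, hxP, sub_zero])
    (by rw [mul_sub, mul_sub, mul_one, hxF, hxZ]; simp)
    hs'x hs's' hs's
    (by rw [mul_sub, hS'Z, hs'P, sub_self])
    (by rw [mul_sub, mul_sub, mul_one, hS'F, hS'Z]; simp)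
    hss rfl
    (by rw [mul_sub, hSZ, hsP, sub_zero])
    (by rw [mul_sub, mul_sub, mul_one, hSF, hSZ]; simp)
    (by rw [sub_mul, hZx, hPx, sub_zero])
    (by rw [sub_mul, hZS', hPs', sub_zero])
    (by rw [sub_mul, hZS, hPs, sub_self])
    (by rw [sub_mul, mul_sub, mul_sub, hZZ, hZP, hPZ, hPP]; simp)
    (by rw [sub_mul, mul_sub, mul_sub, mul_sub, mul_sub, mul_one, mul_one, hZF, hZZ, hPF, hPZ]
        simp)
    (by rw [sub_mul, sub_mul, one_mul, hFx, hZx]; simp)
    (by rw [sub_mul, sub_mul, one_mul, hFS', hZS']; simp)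
    (by rw [sub_mul, sub_mul, one_mul, hFS, hZS]; simp)
    (by rw [sub_mul, sub_mul, one_mul, mul_sub, mul_sub, hFZ, hFP, hZZ, hZP]; simp)
    (by rw [sub_mul, sub_mul, one_mul, mul_sub, mul_sub, mul_sub, mul_sub, mul_one, mul_one, hFF,
          hFZ, hZF, hZZ]; simp)
    hFx hxF (by abel) t t' ht
  have hcont : Tendsto (fun t : ℂ => x + t • star s - t • s + t • (Z - s * star s) + (1 - F - Z))
      (𝓝[≠] 0) (𝓝 (x + 1 - F - Z)) := by
    have hc : Continuous
        (fun t : ℂ => x + t • star s - t • s + t • (Z - s * star s) + (1 - F - Z)) := by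
      fun_prop
    have h0 := hc.tendsto 0
    have he : x + (0 : ℂ) • star s - (0 : ℂ) • s + (0 : ℂ) • (Z - s * star s) + (1 - F - Z)
        = x + 1 - F - Z := by
      simp only [zero_smul]
      abel
    rw [he] at h0
    exact h0.mono_left nhdsWithin_le_nhds
  refine mem_closure_of_tendsto hcont ?_
  filter_upwards [self_mem_nhdsWithin] with t ht
  have ht0 : t ≠ 0 := ht
  obtain ⟨h1, h2⟩ := key t t⁻¹ (mul_inv_cancel₀ ht0)
  exact ⟨⟨_, _, h1, h2⟩, rfl⟩

end

end Pool.Agent.Helper9.VI
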