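import Pool.Agent.Helper9.VI.Sys

/-!
# VI-MAT: facts on complex matrices

PROOF.
* `mat_singular`: `A` is not a unit, so `det A = 0` (`Matrix.isUnit_iff_isUnit_det`; `CStarMatrix J J ℂ`
  is `Matrix J J ℂ` as a ring, `CStarMatrix.ofMatrixRingEquiv`), there is a unit vector `v` with
  `A v = 0` (`Matrix.exists_mulVec_eq_zero_iff`), `E i j = v i * conj (v j)`.
* `mat_dense`: `A + t 1` is a unit for all but finitely many `t` (`det (A + t)` is a non-zero
  polynomial in `t`, or: the spectrum of an element is finite / the eigenvalues are finitely many).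
* `mat_norming`: there are unit vectors `v`, `w` with `⟪w, A v⟫ = ‖A‖`: the norm of
  `CStarMatrix J J ℂ` is the operator norm (`CStarMatrix.norm_def`, or use the uniqueness of the
  C*-norm: an injective *-homomorphism between C*-algebras is isometric, applied to
  `Matrix.toEuclideanCLM`), and the unit sphere is compact. If `A = 0` take any unit vector.
  `E i j = w i * conj (w j)`, `G i j = v i * conj (w j)`: `E A G = ⟪w, A v⟫ E`.
* `norm_star_proj`: `‖E‖ ≤ 1` for a star projection of any C*-algebra.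
-/

namespace Pool.Agent.Helper9.VI

open Filter Topology
open scoped ComplexOrder ENNReal NNReal

noncomputable section

variable {J : Type} [Fintype J] [DecidableEq J]

set_option linter.unusedSectionVars false

theorem norm_star_proj {B : Type} [CStarAlgebra B] (E : B) (hE : IsStarProjection E) :
    ‖E‖ ≤ 1 := hE.norm_le

/-- the matrices as operators on a Hilbert space -/
def matPhi97 : Mx J ≃⋆ₐ[ℂ] (EuclideanSpace ℂ J →L[ℂ] EuclideanSpace ℂ J) :=
  (CStarMatrix.ofMatrixStarAlgEquiv (n := J) (A := ℂ)).symm.trans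
    (Matrix.toEuclideanCLM (n := J) (𝕜 := ℂ))

theorem norm_matPhi97 (A : Mx J) : ‖matPhi97 A‖ = ‖A‖ := by
  exact StarAlgEquiv.norm_map matPhi97 A

theorem matPhi97_apply (A : Mx J) (v : EuclideanSpace ℂ J) (i : J) :
    (matPhi97 A v) i = ∑ k, A i k * v k := rfl

/-- the rank one matrix `x ⊗ conj y` -/
def rk97 (x y : J → ℂ) : Mx J := CStarMatrix.ofMatrix (fun i j => x i * star (y j))

theorem rk97_apply (x y : J → ℂ) (i j : J) : rk97 x y i j = x i * star (y j) := rfl

theorem star_rk97 (x y : J → ℂ) : star (rk97 x y) = rk97 y x := by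
  ext i j
  rw [CStarMatrix.star_apply, rk97_apply, rk97_apply, star_mul, star_star]

theorem rk97_mul (x y z w : J → ℂ) :
    rk97 x y * rk97 z w = (∑ k, star (y k) * z k) • rk97 x w := by
  ext i j
  rw [CStarMatrix.mul_apply, CStarMatrix.smul_apply, smul_eq_mul, Finset.sum_mul]
  apply Finset.sum_congr rfl
  intro k _
  simp only [rk97_apply]
  ring

theorem mul_rk97 (A : Mx J) (x y : J → ℂ) :
    A * rk97 x y = rk97 (fun i => ∑ k, A i k * x k) y := by
  ext i j
  rw [CStarMatrix.mul_apply, rk97_apply, Finset.sum_mul]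
  apply Finset.sum_congr rfl
  intro k _
  simp only [rk97_apply]
  ring

theorem rk97_proj (x : J → ℂ) (hx : ∑ k, star (x k) * x k = 1) :
    IsStarProjection (rk97 x x) := by
  refine ⟨?_, ?_⟩
  · show rk97 x x * rk97 x x = rk97 x x
    rw [rk97_mul, hx, one_smul]
  · exact star_rk97 x x

theorem tr_rk97 (x : J → ℂ) (hx : ∑ k, star (x k) * x k = 1) : (rk97 x x).tr = 1 := by
  unfold Mx.tr
  rw [← hx]
  apply Finset.sum_congr rfl
  intro k _
  rw [rk97_apply, mul_comm]

theorem sum_of_norm97 (x : EuclideanSpace ℂ J) (hx : ‖x‖ = 1) :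
    ∑ k, star (x k) * x k = 1 := by
  have h2 : ∑ k, ‖x k‖ ^ 2 = 1 := by
    rw [← EuclideanSpace.norm_sq_eq, hx]; norm_num
  have h3 : ∑ k, star (x k) * x k = ((∑ k, ‖x k‖ ^ 2 : ℝ) : ℂ) := by
    push_cast
    apply Finset.sum_congr rfl
    intro k _
    exact Complex.conj_mul' (x k)
  rw [h3, h2]
  norm_num

theorem mat_singular (A : Mx J) (hA : ¬ IsUnit A) :
    ∃ E : Mx J, IsStarProjection E ∧ E.tr = 1 ∧ A * E = 0 := by
  have h1 : ¬ IsUnit (CStarMatrix.ofMatrixRingEquiv.symm A : Matrix J J ℂ) := by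
    intro h
    apply hA
    have := h.map (CStarMatrix.ofMatrixRingEquiv (n := J) (A := ℂ))
    rwa [RingEquiv.apply_symm_apply] at this
  set B : Matrix J J ℂ := CStarMatrix.ofMatrixRingEquiv.symm A with hB
  have h2 : B.det = 0 := by
    rw [Matrix.isUnit_iff_isUnit_det, isUnit_iff_ne_zero, not_not] at h1
    exact h1
  obtain ⟨v, hv0, hv⟩ := Matrix.exists_mulVec_eq_zero_iff.2 h2
  set u : EuclideanSpace ℂ J := WithLp.toLp 2 v with hu
  have hu0 : u ≠ 0 := by
    intro h
    apply hv0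
    have := congrArg WithLp.ofLp h
    simpa [hu] using this
  have hn : ‖u‖ ≠ 0 := norm_ne_zero_iff.2 hu0
  set x : EuclideanSpace ℂ J := ((‖u‖ : ℂ)⁻¹) • u with hx
  have hx1 : ‖x‖ = 1 := by
    rw [hx, norm_smul, norm_inv, Complex.norm_real, norm_norm, inv_mul_cancel₀ hn]
  have hsum := sum_of_norm97 x hx1
  refine ⟨rk97 x x, rk97_proj _ hsum, tr_rk97 _ hsum, ?_⟩
  rw [mul_rk97]
  have hz : (fun i => ∑ k, A i k * x k) = fun _ => 0 := by
    funext i
    have h3 : ∑ k, A i k * v k = 0 := congrFun hv i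
    have h4 : ∀ k, x k = (‖u‖ : ℂ)⁻¹ * v k := fun k => rfl
    calc ∑ k, A i k * x k = (‖u‖ : ℂ)⁻¹ * ∑ k, A i k * v k := by
          rw [Finset.mul_sum]
          apply Finset.sum_congr rfl
          intro k _
          rw [h4]; ring
      _ = 0 := by rw [h3, mul_zero]
  rw [hz]
  ext i j
  rw [rk97_apply, zero_mul]
  rfl

theorem mat_dense (A : Mx J) (ε : ℝ) (hε : 0 < ε) : ∃ W : Mx J, IsUnit W ∧ ‖W - A‖ < ε := by
  set B : Matrix J J ℂ := CStarMatrix.ofMatrixRingEquiv.symm A with hB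
  have hfin := Matrix.finite_spectrum B
  have hinf : (Set.Ioo (0 : ℝ) ε).Infinite := Set.Ioo_infinite hε
  have hinf2 : ((fun t : ℝ => (t : ℂ)) '' Set.Ioo (0 : ℝ) ε).Infinite :=
    hinf.image Complex.ofReal_injective.injOn
  obtain ⟨z, ⟨t, ht, rfl⟩, hz⟩ := hinf2.exists_notMem_finite hfin
  rw [spectrum.mem_iff, not_not] at hz
  have h1 : IsUnit (B - algebraMap ℂ (Matrix J J ℂ) (t : ℂ)) := by
    rw [← IsUnit.neg_iff, neg_sub]
    exact hz
  have h2 := h1.map (CStarMatrix.ofMatrixRingEquiv (n := J) (A := ℂ))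
  refine ⟨_, h2, ?_⟩
  have h3 : CStarMatrix.ofMatrixRingEquiv (B - algebraMap ℂ (Matrix J J ℂ) (t : ℂ)) - A =
      -((t : ℂ) • (1 : Mx J)) := by
    rw [map_sub, hB, RingEquiv.apply_symm_apply, sub_sub_cancel_left, Algebra.algebraMap_eq_smul_one]
    rfl
  rw [h3, norm_neg, norm_smul, Complex.norm_real, Real.norm_of_nonneg ht.1.le]
  have h4 : ‖(1 : Mx J)‖ ≤ 1 := norm_star_proj 1 (by
    refine ⟨?_, ?_⟩
    · show (1 : Mx J) * 1 = 1
      rw [mul_one]
    · exact star_one _)
  calc t * ‖(1 : Mx J)‖ ≤ t * 1 := mul_le_mul_of_nonneg_left h4 ht.1.le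
    _ < ε := by rw [mul_one]; exact ht.2

theorem mat_norming [Nonempty J] (A : Mx J) :
    ∃ E G : Mx J, IsStarProjection E ∧ E.tr = 1 ∧ ‖G‖ ≤ 1 ∧ E * A * G = (‖A‖ : ℂ) • E := by
  have hnt : Nontrivial (EuclideanSpace ℂ J) := inferInstance
  obtain ⟨j0⟩ := (inferInstance : Nonempty J)
  by_cases hA : A = 0
  · set x : EuclideanSpace ℂ J := EuclideanSpace.single j0 (1 : ℂ) with hx
    have hx1 : ‖x‖ = 1 := by rw [hx]; simp
    have hsum := sum_of_norm97 x hx1
    refine ⟨rk97 x x, 0, rk97_proj _ hsum, tr_rk97 _ hsum, by rw [norm_zero]; norm_num, ?_⟩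
    rw [hA, norm_zero, mul_zero, Complex.ofReal_zero, zero_smul]
  · have hA0 : 0 < ‖A‖ := norm_pos_iff.2 hA
    have hcomp : IsCompact (Metric.sphere (0 : EuclideanSpace ℂ J) 1) := isCompact_sphere _ _
    have hne : (Metric.sphere (0 : EuclideanSpace ℂ J) 1).Nonempty :=
      NormedSpace.sphere_nonempty.2 zero_le_one
    obtain ⟨v, hv, hmax⟩ := hcomp.exists_isMaxOn hne
      ((matPhi97 A).continuous.norm.continuousOn)
    have hv1 : ‖v‖ = 1 := by simpa using hv
    have hval : ‖matPhi97 A v‖ = ‖A‖ := by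
      apply le_antisymm
      · have := (matPhi97 A).le_opNorm v
        rwa [hv1, mul_one, norm_matPhi97] at this
      · rw [← norm_matPhi97]
        apply ContinuousLinearMap.opNorm_le_bound _ (norm_nonneg _)
        intro y
        by_cases hy : y = 0
        · rw [hy, map_zero, norm_zero, mul_zero]
        · have hyn : ‖y‖ ≠ 0 := norm_ne_zero_iff.2 hy
          have hmem : ((‖y‖ : ℂ)⁻¹) • y ∈ Metric.sphere (0 : EuclideanSpace ℂ J) 1 := by
            rw [mem_sphere_zero_iff_norm, norm_smul, norm_inv, Complex.norm_real, norm_norm,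
              inv_mul_cancel₀ hyn]
          have h1 : ‖matPhi97 A (((‖y‖ : ℂ)⁻¹) • y)‖ ≤ ‖matPhi97 A v‖ := hmax hmem
          rw [map_smul, norm_smul, norm_inv, Complex.norm_real, norm_norm,
            inv_mul_le_iff₀ (norm_pos_iff.2 hy)] at h1
          rw [mul_comm]
          exact h1
    set w : EuclideanSpace ℂ J := ((‖A‖ : ℂ)⁻¹) • matPhi97 A v with hw
    have hw1 : ‖w‖ = 1 := by
      rw [hw, norm_smul, norm_inv, Complex.norm_real, norm_norm, hval, inv_mul_cancel₀ hA0.ne']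
    have hsw := sum_of_norm97 w hw1
    have hsv := sum_of_norm97 v hv1
    refine ⟨rk97 w w, rk97 v w, rk97_proj _ hsw, tr_rk97 _ hsw, ?_, ?_⟩
    · have h1 : star (rk97 (v : J → ℂ) w) * rk97 v w = rk97 w w := by
        rw [star_rk97, rk97_mul, hsv, one_smul]
      have h2 : ‖rk97 (v : J → ℂ) w‖ * ‖rk97 (v : J → ℂ) w‖ ≤ 1 := by
        rw [← CStarRing.norm_star_mul_self, h1]
        exact norm_star_proj _ (rk97_proj _ hsw)
      have h3 := norm_nonneg (rk97 (v : J → ℂ) w)
      nlinarith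
    · have h1 : (fun i => ∑ k, A i k * v k) = fun i => (‖A‖ : ℂ) * w i := by
        funext i
        have : w i = (‖A‖ : ℂ)⁻¹ * (matPhi97 A v) i := rfl
        rw [this, matPhi97_apply, ← mul_assoc, mul_inv_cancel₀, one_mul]
        exact_mod_cast hA0.ne'
      rw [mul_assoc, mul_rk97, h1, rk97_mul]
      congr 1
      calc ∑ k, star (w k) * ((‖A‖ : ℂ) * w k) = (‖A‖ : ℂ) * ∑ k, star (w k) * w k := by
            rw [Finset.mul_sum]
            apply Finset.sum_congr rfl
            intro k _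
            ring
        _ = (‖A‖ : ℂ) := by rw [hsw, mul_one]

end

end Pool.Agent.Helper9.VI
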