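import Pool.Agent.Helper9.VI.Abs.LimSys
import Pool.Agent.Helper9.VI.Abs.Mat
import Pool.Agent.Helper9.VI.Abs.Explicit

/-!
# VI-SR: stable rank one

`GA L n` is the set of `a ∈ A n` whose image in the limit is a limit of invertible elements.
-/

namespace Pool.Agent.Helper9.VI

open Filter Topology
open scoped ComplexOrder ENNReal NNReal

noncomputable section

variable {S : Sys} {B : Type} [CStarAlgebra B]

/-- elements of `A n` that are approximable by invertible elements of the limit -/
def Lim.GA (L : Lim S B) (n : ℕ) : Set (S.A n) := {a | L.ι n a ∈ closure {b : B | IsUnit b}}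

/-- Elements of type `(N, k)` in `A n`. -/
structure IsType (S : Sys) (N k n : ℕ) (d : S.A n) : Prop where
  ex : ∃ (x F f : S.A n) (r : Fin N → S.A n) (e : Fin k → S.A n),
    IsStarProjection F ∧ f ∈ S.basic n ∧ F * x * F = x ∧ (∀ i, r i * F = r i) ∧
    ∑ i, star (r i) * f * r i = F ∧ (∀ i, e i ∈ S.basic n) ∧ (∀ i j, i ≠ j → e i * e j = 0) ∧
    (∀ i, F * e i = 0) ∧ d = x + 1 - F - ∑ i, e i

end

end Pool.Agent.Helper9.VI
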