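import Pool.Agent.Helper9.VI.Defs

/-!
# VI-FIN, VI-QTR: general facts

PROOF.
* `stablyFinite_of`: `B` simple with tracial state `f`. `N = {x | f (star x * x) = 0}` is a two-sided ideal
  (Cauchy-Schwarz for the positive form; `star (x y) (x y)`: `f (y* x* x y) = f (x* x y y*) ≤ ..` or
  `f ((x y)* (x y)) = f ((x y) (x y)*)`; `≤ ‖y‖² f (x x*)`), proper since `f 1 = 1`, so zero: `f` is faithful. If
  `star x * x = 1` in `M_n(B)`, `e = 1 - x * star x` satisfies `star e * e = e`, and with
  `F y = ∑ i, f (y i i)`: `F (star e * e) = F e = F 1 - F (x * star x) = F 1 - F (star x * x) = 0`, and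
  `F (star e * e) = ∑_{i,j} f (star (e j i) * e j i)`, a sum of non-negative terms, so `e = 0`.
* `quasiTrace_of`: a tracial state gives the family `t n y = ∑ i, f (y i i)`: linear, tracial, positive,
  continuous; `corner`, `normalized` by computation.
* `star_proj_nnrpow`: `p ^ y = p` for a star projection and `0 < y` (functional calculus: the spectrum of
  `p` is contained in `{0, 1}`; `CFC.nnrpow`, `cfcₙ_congr`), so `dimFun t p = (t p).re`.
-/

namespace Pool.Agent.Helper9.VI

open Filter Topology
open scoped ComplexOrder ENNReal NNReal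

noncomputable section

/-- A real affine function that is non-negative everywhere is constant. -/
theorem slope_eq_zero {A c : ℝ} (h : ∀ t : ℝ, 0 ≤ A + t * c) : c = 0 := by
  by_contra hc
  have h1 := h (-(A + 1) / c)
  rw [div_mul_cancel₀ _ hc] at h1
  linarith

/-- Cauchy-Schwarz, the degenerate case. -/
theorem trace_mul_eq_zero {B : Type} [CStarAlgebra B] {f : WeakDual ℂ B}
    (hf : f ∈ tracialStates B) {x : B} (hx : f (star x * x) = 0) (a : B) :
    f (star a * x) = 0 := by
  obtain ⟨hpos, -, -⟩ := hf
  have h : ∀ l : ℂ, 0 ≤ f (star a * a) + l * f (star a * x) + star l * f (star x * a) := by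
    intro l
    have h1 := hpos (a + l • x)
    have e : f (star (a + l • x) * (a + l • x)) =
        f (star a * a) + l * f (star a * x) + star l * f (star x * a) := by
      rw [star_add, star_smul, add_mul, mul_add, mul_add]
      simp only [map_add, smul_mul_assoc, mul_smul_comm, map_smul, smul_eq_mul, hx]
      ring
    rwa [e] at h1
  set A := f (star a * a)
  set p := f (star a * x)
  set q := f (star x * a)
  have h0 := (Complex.nonneg_iff.1 (h 0)).2
  have hr : ∀ t : ℝ, 0 ≤ A.re + t * (p.re + q.re) := by
    intro t
    have h1 := (Complex.nonneg_iff.1 (h (t : ℂ))).1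
    simp only [Complex.star_def, Complex.conj_ofReal, Complex.add_re, Complex.mul_re,
      Complex.ofReal_re, Complex.ofReal_im] at h1
    linarith
  have hi : ∀ t : ℝ, 0 ≤ A.re + t * (q.im - p.im) := by
    intro t
    have h1 := (Complex.nonneg_iff.1 (h ((t : ℂ) * Complex.I))).1
    simp only [Complex.star_def, map_mul, Complex.conj_ofReal, Complex.conj_I, Complex.add_re,
      Complex.mul_re, Complex.mul_im, Complex.ofReal_re, Complex.ofReal_im, Complex.I_re,
      Complex.I_im, Complex.neg_re, Complex.neg_im] at h1
    linarith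
  have h2 := slope_eq_zero hr
  have h3 := slope_eq_zero hi
  have h4 := (Complex.nonneg_iff.1 (h 1)).2
  have h5 := (Complex.nonneg_iff.1 (h Complex.I)).2
  simp only [Complex.star_def, map_one, one_mul, zero_mul, map_zero, add_zero,
    Complex.conj_I, Complex.add_im, Complex.mul_im, Complex.I_re, Complex.I_im,
    Complex.neg_re, Complex.neg_im] at h0 h4 h5
  apply Complex.ext
  · rw [Complex.zero_re]
    linarith
  · rw [Complex.zero_im]
    linarith

/-- A tracial state of a simple algebra is faithful. -/
theorem eq_zero_of_trace {B : Type} [CStarAlgebra B] (hs : IsSimpleRing B) {f : WeakDual ℂ B}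
    (hf : f ∈ tracialStates B) {x : B} (hx : f (star x * x) = 0) : x = 0 := by
  have htr := hf.2.2
  let I : TwoSidedIdeal B := TwoSidedIdeal.mk' {x : B | ∀ y : B, f (y * x) = 0}
    (by intro y; simp)
    (by
      intro x z hx hz y
      rw [mul_add, map_add, hx y, hz y, add_zero])
    (by
      intro x hx y
      rw [mul_neg, map_neg, hx y, neg_zero])
    (by
      intro a x hx y
      rw [← mul_assoc]
      exact hx (y * a))
    (by
      intro x a hx y
      rw [← mul_assoc, htr, ← mul_assoc]
      exact hx (a * y))
  have hmem : ∀ z : B, z ∈ I ↔ ∀ y : B, f (y * z) = 0 := by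
    intro z
    exact TwoSidedIdeal.mem_mk' _ _ _ _ _ _ z
  have hxI : x ∈ I := by
    rw [hmem]
    intro y
    have h1 := trace_mul_eq_zero hf hx (star y)
    rwa [star_star] at h1
  rcases hs.simple.eq_bot_or_eq_top I with h | h
  · rw [h] at hxI
    exact (TwoSidedIdeal.mem_bot B).1 hxI
  · exfalso
    have h1 : (1 : B) ∈ I := by
      rw [h]
      exact TwoSidedIdeal.mem_top B
    have h2 := (hmem 1).1 h1 1
    rw [one_mul, hf.2.1] at h2
    exact one_ne_zero h2

theorem stablyFinite_of {B : Type} [CStarAlgebra B] (hs : IsSimpleRing B)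
    (hf : (tracialStates B).Nonempty) : StablyFinite B := by
  obtain ⟨f, hf⟩ := hf
  intro n x hx
  have hpos := hf.1
  have htr := hf.2.2
  set e : Matrix (Fin n) (Fin n) B := 1 - x * star x with he
  have hse : star e = e := by
    rw [he, star_sub, star_one, star_mul, star_star]
  have hee : star e * e = e := by
    rw [hse, he, mul_sub, mul_one, sub_mul, one_mul]
    have h1 : x * star x * (x * star x) = x * star x := by
      rw [mul_assoc, ← mul_assoc (star x) x (star x), hx, one_mul]
    rw [h1, sub_self, sub_zero]
  -- the trace of `x x*` is the trace of `x* x`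
  have h1 : ∑ i, f ((x * star x) i i) = ∑ i, f ((star x * x) i i) := by
    simp only [Matrix.mul_apply, Matrix.star_apply, map_sum]
    rw [Finset.sum_comm]
    refine Finset.sum_congr rfl fun i _ => Finset.sum_congr rfl fun j _ => ?_
    exact htr _ _
  have h2 : ∑ i, f ((star e * e) i i) = 0 := by
    rw [hee, he]
    simp only [Matrix.sub_apply, map_sub, Finset.sum_sub_distrib]
    rw [h1, hx, sub_self]
  have h3 : ∑ i, ∑ j, f (star (e j i) * e j i) = 0 := by
    rw [← h2]
    refine Finset.sum_congr rfl fun i _ => ?_
    rw [Matrix.mul_apply, map_sum]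
    rfl
  have h4 : ∀ i j, f (star (e j i) * e j i) = 0 := by
    intro i j
    have h5 := (Finset.sum_eq_zero_iff_of_nonneg
      (fun i _ => Finset.sum_nonneg fun j _ => hpos (e j i))).1 h3 i (Finset.mem_univ i)
    exact (Finset.sum_eq_zero_iff_of_nonneg (fun j _ => hpos (e j i))).1 h5 j (Finset.mem_univ j)
  have h6 : e = 0 := by
    ext i j
    exact eq_zero_of_trace hs hf (h4 j i)
  exact (sub_eq_zero.1 (he ▸ h6)).symm

end

end Pool.Agent.Helper9.VI
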