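import Pool.Agent.Helper9.VI.Defs

/-!
# VI-PRO: powers of projections

PROOF. `p ^ y = p` for a star projection `p` and `0 < y` in `ℝ≥0` (functional calculus: the spectrum of
`p` is contained in `{0, 1}`; `CFC.nnrpow`, `cfcₙ_congr`, `cfcₙ_id`), so the sequence in `dimFun` is constant.
-/

namespace Pool.Agent.Helper9.VI

open Filter Topology
open scoped ComplexOrder ENNReal NNReal

noncomputable section

theorem star_proj_nnrpow {B : Type} [CStarAlgebra B] [PartialOrder B] [StarOrderedRing B] {p : B}
    (hp : IsStarProjection p) {y : ℝ≥0} (hy : 0 < y) : p ^ y = p := by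
  have h0 : 0 ≤ p := hp.nonneg
  rw [CFC.nnrpow_eq_cfcₙ_real p y h0]
  have hsub : Set.EqOn (fun x : ℝ => x ^ (y : ℝ)) id (quasispectrum ℝ p) := by
    intro x hx
    have h1 := hp.isIdempotentElem.quasispectrum_subset ℝ hx
    have hy' : (y : ℝ) ≠ 0 := by exact_mod_cast hy.ne'
    rcases h1 with h | h
    · rw [h]; simp [Real.zero_rpow hy']
    · rw [Set.mem_singleton_iff] at h
      rw [h]; simp
  rw [cfcₙ_congr hsub, cfcₙ_id ℝ p]

theorem dimFun_proj {B : Type} [CStarAlgebra B] [PartialOrder B] [StarOrderedRing B] {p : B}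
    (hp : IsStarProjection p) (t : B → ℂ) : dimFun t p = (t p).re := by
  unfold dimFun
  have h : (fun k : ℕ => (t (p ^ (1 / (k + 1) : ℝ≥0))).re) = fun _ => (t p).re := by
    funext k
    rw [star_proj_nnrpow hp (by positivity)]
  rw [h]
  exact tendsto_const_nhds.limUnder_eq

end

end Pool.Agent.Helper9.VI
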