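import Pool.Agent.Helper9.VI.Defs

/-!
# VI-QTR: a tracial state gives a quasitrace

PROOF. `f ∈ tracialStates B`; the family `t n y = ∑ i, f (y i i)`: linear, `t n (star y * y) =
∑_{i,j} f (star (y j i) * y j i) ≥ 0`, `= t n (y * star y)` by the trace property, continuous (entries are
continuous functions on `CStarMatrix`, `CStarMatrix.norm_entry_le_norm`), hence lower
semicontinuous; `corner`, `normalized` by computation.
-/

namespace Pool.Agent.Helper9.VI

open Filter Topology
open scoped ComplexOrder ENNReal NNReal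

noncomputable section

theorem continuous_diagEntry {B : Type} [CStarAlgebra B] [PartialOrder B] [StarOrderedRing B]
    {n : ℕ} (i : Fin n) : Continuous (fun y : CStarMatrix (Fin n) (Fin n) B => y i i) := by
  let L : CStarMatrix (Fin n) (Fin n) B →ₗ[ℂ] B :=
    { toFun := fun y => y i i
      map_add' := fun x y => CStarMatrix.add_apply x y i i
      map_smul' := fun c x => CStarMatrix.smul_apply c x i i }
  exact (L.mkContinuous 1 (fun y => by
    rw [one_mul]
    exact CStarMatrix.norm_entry_le_norm (M := y) (i := i) (j := i))).continuous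

theorem quasiTrace_of {B : Type} [CStarAlgebra B] [PartialOrder B] [StarOrderedRing B]
    (hf : (tracialStates B).Nonempty) : Nonempty (QuasiTrace B) := by
  obtain ⟨f, hpos, hone, htr⟩ := hf
  have hstar : ∀ (n : ℕ) (x : CStarMatrix (Fin n) (Fin n) B),
      (∑ i, f ((star x * x) i i)) = ∑ i, ∑ j, f (star (x j i) * x j i) := by
    intro n x
    refine Finset.sum_congr rfl fun i _ => ?_
    rw [CStarMatrix.mul_apply, map_sum]
    refine Finset.sum_congr rfl fun j _ => ?_
    rw [CStarMatrix.star_apply]
  have hstar' : ∀ (n : ℕ) (x : CStarMatrix (Fin n) (Fin n) B),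
      (∑ i, f ((x * star x) i i)) = ∑ i, ∑ j, f (star (x i j) * x i j) := by
    intro n x
    refine Finset.sum_congr rfl fun i _ => ?_
    rw [CStarMatrix.mul_apply, map_sum]
    refine Finset.sum_congr rfl fun j _ => ?_
    rw [CStarMatrix.star_apply, htr]
  have hadd : ∀ (n : ℕ) (x y : CStarMatrix (Fin n) (Fin n) B),
      (∑ i, f ((x + y) i i)) = (∑ i, f (x i i)) + ∑ i, f (y i i) := by
    intro n x y
    rw [← Finset.sum_add_distrib]
    refine Finset.sum_congr rfl fun i _ => ?_
    rw [CStarMatrix.add_apply, map_add]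
  have hsmul : ∀ (n : ℕ) (c : ℂ) (x : CStarMatrix (Fin n) (Fin n) B),
      (∑ i, f ((c • x) i i)) = c * ∑ i, f (x i i) := by
    intro n c x
    rw [Finset.mul_sum]
    refine Finset.sum_congr rfl fun i _ => ?_
    rw [CStarMatrix.smul_apply, map_smul, smul_eq_mul]
  refine ⟨{
    t := fun n y => ∑ i, f (y i i)
    isQ := fun n => ?_
    corner := fun n a => ?_
    normalized := ?_ }⟩
  · refine ⟨fun x => ?_, fun x => ?_, fun a b _ _ => ?_, fun S _ x _ y _ c => ⟨?_, ?_⟩, ?_⟩
    · show 0 ≤ ∑ i, f ((star x * x) i i)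
      rw [hstar]
      exact Finset.sum_nonneg fun i _ => Finset.sum_nonneg fun j _ => hpos _
    · show (∑ i, f ((star x * x) i i)) = ∑ i, f ((x * star x) i i)
      rw [hstar, hstar', Finset.sum_comm]
    · show (∑ i, f ((a + Complex.I • b) i i)) = (∑ i, f (a i i)) + Complex.I * ∑ i, f (b i i)
      rw [hadd, hsmul]
    · exact hadd n x y
    · exact hsmul n c x
    · have hc : Continuous (fun y : CStarMatrix (Fin n) (Fin n) B => (∑ i, f (y i i)).re) := by
        refine Complex.continuous_re.comp ?_
        refine continuous_finsetSum _ fun i _ => ?_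
        exact (WeakDual.toStrongDual f).continuous.comp (continuous_diagEntry i)
      exact hc.lowerSemicontinuous.lowerSemicontinuousOn _
  · show (∑ i : Fin (n + 1), f (if i = 0 ∧ i = 0 then a else 0)) = ∑ i : Fin 1, f a
    rw [Finset.sum_eq_single (0 : Fin (n + 1))]
    · simp
    · intro i _ hi
      rw [if_neg (fun h => hi h.1), map_zero]
    · intro h
      exact absurd (Finset.mem_univ _) h
  · show (∑ i : Fin 1, f ((1 : CStarMatrix (Fin 1) (Fin 1) B) i i)) = 1
    rw [Fin.sum_univ_one, CStarMatrix.one_apply_eq, hone]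

end

end Pool.Agent.Helper9.VI
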