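import Pool.Agent.Helper9.VI.Abs.Limit

/-!
# VI-LSYS: the limit of a system

PROOF. `norm_phi`: `≤` because a *-homomorphism of C*-algebras is contractive
(`NonUnitalStarAlgHom.norm_apply_le`), `≥`: for `i = ⟨0, c_pos⟩`,
`phi a * α i 1 = α i a` (by `αα`, `βα`), so `‖a‖ = ‖α i a‖ ≤ ‖phi a‖ ‖α i 1‖ ≤ ‖phi a‖`.
`exists_lim`: `exists_limit` applied to `S.phi`.
`ι_iter`, `ι_up`: induction. `approx`: density and monotonicity of the ranges.
-/

namespace Pool.Agent.Helper9.VI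

open Filter Topology
open scoped ComplexOrder ENNReal NNReal

noncomputable section

theorem norm_phi (S : Pre) (n : ℕ) (a : S.A n) : ‖S.phi n a‖ = ‖a‖ := by
  apply le_antisymm
  · exact NonUnitalStarAlgHom.norm_apply_le (S.phi n) a
  · let i : Fin (S.c n) := ⟨0, S.c_pos n⟩
    have h1 : S.phi n a * S.α n i 1 = S.α n i a := by
      rw [S.phi_apply, add_mul, Finset.sum_mul, Finset.sum_mul]
      rw [Finset.sum_eq_single i (fun j _ hj => S.αα n j i hj a 1) (by simp)]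
      simp only [S.βα, Finset.sum_const_zero, add_zero]
      rw [← map_mul, mul_one]
    have h2 : ‖S.α n i 1‖ ≤ 1 := by
      rw [S.norm_α]
      rcases subsingleton_or_nontrivial (S.A n) with h | h
      · rw [Subsingleton.elim (1 : S.A n) 0, norm_zero]; exact zero_le_one
      · exact le_of_eq CStarRing.norm_one
    calc ‖a‖ = ‖S.α n i a‖ := (S.norm_α n i a).symm
      _ = ‖S.phi n a * S.α n i 1‖ := by rw [h1]
      _ ≤ ‖S.phi n a‖ * ‖S.α n i 1‖ := norm_mul_le _ _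
      _ ≤ ‖S.phi n a‖ * 1 := mul_le_mul_of_nonneg_left h2 (norm_nonneg _)
      _ = ‖S.phi n a‖ := mul_one _

theorem exists_lim (S : Sys) : ∃ (B : Type) (_ : CStarAlgebra B), Nonempty (Lim S B) := by
  obtain ⟨B, hB, ι, h1, h2, h3⟩ := exists_limit S.A (fun n => S.phi n) (fun n a => norm_phi S.toPre n a)
  exact ⟨B, hB, ⟨⟨ι, h1, h2, h3⟩⟩⟩

variable {S : Sys} {B : Type} [CStarAlgebra B]

theorem Lim.ι_iter (L : Lim S B) (n k : ℕ) (a : S.A n) : L.ι (n + k) (S.iter n k a) = L.ι n a := by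
  induction k with
  | zero => rfl
  | succ k ih => exact (L.ι_phi (n + k) (S.iter n k a)).trans ih

theorem Lim.ι_up (L : Lim S B) (n : ℕ) (a : S.A 0) : L.ι n (S.up n a) = L.ι 0 a := by
  induction n with
  | zero => rfl
  | succ n ih => exact (L.ι_phi n (S.up n a)).trans ih

theorem Lim.approx (L : Lim S B) (b : B) (ε : ℝ) (hε : 0 < ε) :
    ∃ (n : ℕ) (a : S.A n), ‖b - L.ι n a‖ < ε := by
  obtain ⟨y, hy, hd⟩ := L.dense.exists_dist_lt b hε
  obtain ⟨n, a, rfl⟩ := Set.mem_iUnion.1 hy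
  exact ⟨n, a, by rwa [← dist_eq_norm]⟩

end

end Pool.Agent.Helper9.VI
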