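import Pool.Agent.Helper9.VI.Sys

/-!
# VI-LIM: limits of sequences of unital C*-algebras with isometric connecting maps

PROOF. Let `D` be the algebraic direct limit of the `A n` along the maps `f` (Mathlib
`DirectLimit`, `Mathlib/Algebra/Colimit/DirectLimit.lean` has the ring, star and module
structures for a directed system indexed by `ℕ`, maps `f i j h : A i →⋆ₐ[ℂ] A j` by composition,
`Nat.leRecOn`-like recursion), or any other model (for example the quotient of `Σ n, A n`).
All maps are isometric, so `‖[n, a]‖ = ‖a‖` is well defined and makes `D` a normed *-algebra over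
`ℂ` with the C*-identity. Let `B` be the completion `UniformSpace.Completion D` (a `NormedRing` in
Mathlib; star by `Completion.map star`, all identities by density `Completion.induction_on`).
The maps `ι n : A n → D → B` are isometric unital *-homomorphisms with dense union of ranges.
An alternative without `Completion`: bounded sequences `(a_m)` in `∀ m, A m` that are
asymptotically compatible, modulo the null sequences.

The model used below: `D` is the algebra of the eventually compatible sequences with the
eventual norm (a seminorm), and `B` is its completion.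
-/

namespace Pool.Agent.Helper9.VI

open Filter Topology
open scoped ComplexOrder ENNReal NNReal

noncomputable section

namespace LimH22

open UniformSpace

variable (A : ℕ → Type) [∀ n, CStarAlgebra (A n)] (f : ∀ n, A n →⋆ₐ[ℂ] A (n + 1))

/-- eventually compatible sequences -/
def Cpt : StarSubalgebra ℂ (∀ n, A n) where
  carrier := {a | ∃ N, ∀ n ≥ N, a (n + 1) = f n (a n)}
  mul_mem' := by
    rintro a b ⟨N, hN⟩ ⟨M, hM⟩
    refine ⟨max N M, fun n hn => ?_⟩
    rw [Pi.mul_apply, Pi.mul_apply, map_mul, hN n (le_trans (le_max_left _ _) hn),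
      hM n (le_trans (le_max_right _ _) hn)]
  add_mem' := by
    rintro a b ⟨N, hN⟩ ⟨M, hM⟩
    refine ⟨max N M, fun n hn => ?_⟩
    rw [Pi.add_apply, Pi.add_apply, map_add, hN n (le_trans (le_max_left _ _) hn),
      hM n (le_trans (le_max_right _ _) hn)]
  algebraMap_mem' := by
    intro r
    refine ⟨0, fun n _ => ?_⟩
    rw [Pi.algebraMap_apply, Pi.algebraMap_apply]
    exact ((f n).toAlgHom.commutes r).symm
  star_mem' := by
    rintro a ⟨N, hN⟩
    refine ⟨N, fun n hn => ?_⟩
    rw [Pi.star_apply, Pi.star_apply, map_star, hN n hn]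

/-- the algebra of eventually compatible sequences, as a type of its own -/
def D : Type := Cpt A f

instance : Ring (D A f) := inferInstanceAs (Ring (Cpt A f))
instance : StarRing (D A f) := inferInstanceAs (StarRing (Cpt A f))
instance : Algebra ℂ (D A f) := inferInstanceAs (Algebra ℂ (Cpt A f))
instance : StarModule ℂ (D A f) := inferInstanceAs (StarModule ℂ (Cpt A f))

variable {A f}

/-- the entries -/
def D.val (x : D A f) : ∀ n, A n := (x : Cpt A f).1

theorem D.ev (x : D A f) : ∃ N, ∀ n ≥ N, x.val (n + 1) = f n (x.val n) := (x : Cpt A f).2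

@[simp] theorem val_add (x y : D A f) (n : ℕ) : (x + y).val n = x.val n + y.val n := rfl
@[simp] theorem val_mul (x y : D A f) (n : ℕ) : (x * y).val n = x.val n * y.val n := rfl
@[simp] theorem val_neg (x : D A f) (n : ℕ) : (-x).val n = -x.val n := rfl
@[simp] theorem val_sub (x y : D A f) (n : ℕ) : (x - y).val n = x.val n - y.val n := rfl
@[simp] theorem val_zero (n : ℕ) : (0 : D A f).val n = 0 := rfl
@[simp] theorem val_one (n : ℕ) : (1 : D A f).val n = 1 := rfl
@[simp] theorem val_smul (c : ℂ) (x : D A f) (n : ℕ) : (c • x).val n = c • x.val n := rfl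
@[simp] theorem val_star (x : D A f) (n : ℕ) : (star x).val n = star (x.val n) := rfl

/-- the eventual norm -/
def nrm (x : D A f) : ℝ := ‖x.val (Classical.choose x.ev)‖

theorem nrm_const (hf : ∀ n a, ‖f n a‖ = ‖a‖) (x : D A f) (N : ℕ)
    (hN : ∀ n ≥ N, x.val (n + 1) = f n (x.val n)) (n : ℕ) (hn : N ≤ n) :
    ‖x.val n‖ = ‖x.val N‖ := by
  induction n, hn using Nat.le_induction with
  | base => rfl
  | succ n hn ih => rw [hN n hn, hf, ih]

theorem nrm_eq (hf : ∀ n a, ‖f n a‖ = ‖a‖) (x : D A f) : ∀ᶠ n in atTop, nrm x = ‖x.val n‖ := by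
  filter_upwards [eventually_ge_atTop (Classical.choose x.ev)] with n hn
  exact (nrm_const hf x _ (Classical.choose_spec x.ev) n hn).symm

theorem nrm_eq_of (hf : ∀ n a, ‖f n a‖ = ‖a‖) (x : D A f) (N : ℕ)
    (hN : ∀ n ≥ N, x.val (n + 1) = f n (x.val n)) : nrm x = ‖x.val N‖ := by
  obtain ⟨n, h1, h2⟩ := ((nrm_eq hf x).and (eventually_ge_atTop N)).exists
  rw [h1, nrm_const hf x N hN n h2]

theorem nrm_congr (hf : ∀ n a, ‖f n a‖ = ‖a‖) (x : D A f) (h : ∀ᶠ n in atTop, x.val n = 0) :
    nrm x = 0 := by
  obtain ⟨n, h1, h2⟩ := ((nrm_eq hf x).and h).exists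
  rw [h1, h2, norm_zero]

theorem nrm_nonneg (x : D A f) : 0 ≤ nrm x := norm_nonneg _

/-- the seminorm -/
def sn (hf : ∀ n a, ‖f n a‖ = ‖a‖) : AddGroupSeminorm (D A f) where
  toFun := nrm
  map_zero' := nrm_congr hf 0 (Eventually.of_forall fun n => val_zero n)
  add_le' := by
    intro x y
    obtain ⟨n, h1, h2, h3⟩ := ((nrm_eq hf x).and ((nrm_eq hf y).and (nrm_eq hf (x + y)))).exists
    rw [h1, h2, h3, val_add]
    exact norm_add_le _ _
  neg' := by
    intro x
    obtain ⟨n, h1, h2⟩ := ((nrm_eq hf x).and (nrm_eq hf (-x))).exists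
    rw [h1, h2, val_neg, norm_neg]

/-- the seminormed ring -/
instance D.sr [hf : Fact (∀ n a, ‖f n a‖ = ‖a‖)] : SeminormedRing (D A f) :=
  { (sn hf.out).toSeminormedAddCommGroup, (inferInstance : Ring (D A f)) with
    norm_mul_le := by
      intro x y
      change nrm (x * y) ≤ nrm x * nrm y
      obtain ⟨n, h1, h2, h3⟩ := ((nrm_eq hf.out x).and ((nrm_eq hf.out y).and
        (nrm_eq hf.out (x * y)))).exists
      rw [h1, h2, h3, val_mul]
      exact norm_mul_le _ _ }

section

variable [hf : Fact (∀ n a, ‖f n a‖ = ‖a‖)]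

theorem norm_def (x : D A f) : ‖x‖ = nrm x := rfl

theorem norm_eq (x : D A f) : ∀ᶠ n in atTop, ‖x‖ = ‖x.val n‖ := nrm_eq hf.out x

instance : NormedAlgebra ℂ (D A f) where
  norm_smul_le := by
    intro c x
    obtain ⟨n, h1, h2⟩ := ((norm_eq x).and (norm_eq (c • x))).exists
    rw [h1, h2, val_smul, norm_smul]

theorem norm_star' (x : D A f) : ‖star x‖ = ‖x‖ := by
  obtain ⟨n, h1, h2⟩ := ((norm_eq x).and (norm_eq (star x))).exists
  rw [h1, h2, val_star, norm_star]

theorem norm_star_mul (x : D A f) : ‖x‖ * ‖x‖ ≤ ‖star x * x‖ := by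
  obtain ⟨n, h1, h2⟩ := ((norm_eq x).and (norm_eq (star x * x))).exists
  rw [h1, h2, val_mul, val_star, CStarRing.norm_star_mul_self]

theorem uc_star : UniformContinuous (star : D A f → D A f) := by
  have h : Isometry (star : D A f → D A f) := by
    refine Isometry.of_dist_eq fun x y => ?_
    rw [dist_eq_norm, dist_eq_norm, ← star_sub, norm_star']
  exact h.uniformContinuous

variable (A f) in
/-- the completion -/
abbrev Bx : Type := Completion (D A f)

instance : Star (Bx A f) := ⟨Completion.map star⟩

theorem star_coe (x : D A f) : star (x : Bx A f) = ((star x : D A f) : Bx A f) :=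
  Completion.map_coe uc_star x

theorem cont_star : Continuous (star : Bx A f → Bx A f) := Completion.continuous_map

instance : StarRing (Bx A f) where
  star_involutive := by
    intro x
    induction x using Completion.induction_on with
    | hp => exact isClosed_eq (cont_star.comp cont_star) continuous_id
    | ih x => rw [star_coe, star_coe, star_star]
  star_mul := by
    intro x y
    induction x, y using Completion.induction_on₂ with
    | hp => exact isClosed_eq (cont_star.comp (continuous_fst.mul continuous_snd))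
              ((cont_star.comp continuous_snd).mul (cont_star.comp continuous_fst))
    | ih x y => rw [← Completion.coe_mul, star_coe, star_coe, star_coe, star_mul,
                  Completion.coe_mul]
  star_add := by
    intro x y
    induction x, y using Completion.induction_on₂ with
    | hp => exact isClosed_eq (cont_star.comp (continuous_fst.add continuous_snd))
              ((cont_star.comp continuous_fst).add (cont_star.comp continuous_snd))
    | ih x y => rw [← Completion.coe_add, star_coe, star_coe, star_coe, star_add,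
                  Completion.coe_add]

instance : NormedAlgebra ℂ (Bx A f) where
  norm_smul_le := norm_smul_le

instance : StarModule ℂ (Bx A f) where
  star_smul := by
    intro c x
    induction x using Completion.induction_on with
    | hp => exact isClosed_eq (cont_star.comp (continuous_const_smul c))
              ((continuous_const_smul (star c)).comp cont_star)
    | ih x => rw [← Completion.coe_smul, star_coe, star_coe, star_smul, Completion.coe_smul]

instance : CStarRing (Bx A f) where
  norm_mul_self_le := by
    intro x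
    induction x using Completion.induction_on with
    | hp => exact isClosed_le (continuous_norm.mul continuous_norm)
              (continuous_norm.comp (cont_star.mul continuous_id))
    | ih x =>
      rw [star_coe, ← Completion.coe_mul, Completion.norm_coe, Completion.norm_coe]
      exact norm_star_mul x

instance : CStarAlgebra (Bx A f) where

theorem coe_eq_of (x y : D A f) (h : ∀ᶠ n in atTop, x.val n = y.val n) :
    (x : Bx A f) = (y : Bx A f) := by
  rw [← sub_eq_zero, ← Completion.coe_sub, ← norm_eq_zero, Completion.norm_coe, norm_def]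
  refine nrm_congr hf.out _ ?_
  filter_upwards [h] with n hn
  rw [val_sub, hn, sub_self]

end

/-- the sequence of the images of `a`, zero before `n` -/
def seq (f : ∀ n, A n →⋆ₐ[ℂ] A (n + 1)) (n : ℕ) (a : A n) : ∀ m, A m
  | 0 => if h : n = 0 then h ▸ a else 0
  | m + 1 => if h : n = m + 1 then h ▸ a else f m (seq f n a m)

theorem seq_self (n : ℕ) (a : A n) : seq f n a n = a := by
  cases n <;> simp [seq]

theorem seq_lt (n : ℕ) (a : A n) (m : ℕ) (h : m < n) : seq f n a m = 0 := by
  induction m with
  | zero => rw [seq, dif_neg (by omega)]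
  | succ m ih => rw [seq, dif_neg (by omega), ih (by omega), map_zero]

theorem seq_succ (n : ℕ) (a : A n) (m : ℕ) (h : n ≤ m) :
    seq f n a (m + 1) = f m (seq f n a m) := by
  rw [seq, dif_neg (by omega)]

theorem seq_add (n : ℕ) (a b : A n) (m : ℕ) (h : n ≤ m) :
    seq f n (a + b) m = seq f n a m + seq f n b m := by
  induction m, h using Nat.le_induction with
  | base => simp only [seq_self]
  | succ m hm ih => rw [seq_succ _ _ _ hm, seq_succ _ _ _ hm, seq_succ _ _ _ hm, ih, map_add]

theorem seq_mul (n : ℕ) (a b : A n) (m : ℕ) (h : n ≤ m) :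
    seq f n (a * b) m = seq f n a m * seq f n b m := by
  induction m, h using Nat.le_induction with
  | base => simp only [seq_self]
  | succ m hm ih => rw [seq_succ _ _ _ hm, seq_succ _ _ _ hm, seq_succ _ _ _ hm, ih, map_mul]

theorem seq_star (n : ℕ) (a : A n) (m : ℕ) (h : n ≤ m) :
    seq f n (star a) m = star (seq f n a m) := by
  induction m, h using Nat.le_induction with
  | base => simp only [seq_self]
  | succ m hm ih => rw [seq_succ _ _ _ hm, seq_succ _ _ _ hm, ih, map_star]

theorem seq_alg (n : ℕ) (c : ℂ) (m : ℕ) (h : n ≤ m) :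
    seq f n (algebraMap ℂ (A n) c) m = algebraMap ℂ (A m) c := by
  induction m, h using Nat.le_induction with
  | base => simp only [seq_self]
  | succ m hm ih => rw [seq_succ _ _ _ hm, ih]; exact (f m).toAlgHom.commutes c

theorem seq_next (n : ℕ) (a : A n) (m : ℕ) (h : n + 1 ≤ m) :
    seq f (n + 1) (f n a) m = seq f n a m := by
  induction m, h using Nat.le_induction with
  | base => rw [seq_self, seq_succ _ _ _ le_rfl, seq_self]
  | succ m hm ih => rw [seq_succ _ _ _ hm, seq_succ _ _ _ (by omega), ih]

variable (f) in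
/-- the element of `D` -/
def elt (n : ℕ) (a : A n) : D A f := (⟨seq f n a, n, fun m hm => seq_succ n a m hm⟩ : Cpt A f)

theorem val_elt (n : ℕ) (a : A n) (m : ℕ) : (elt f n a).val m = seq f n a m := rfl

section

variable [hf : Fact (∀ n a, ‖f n a‖ = ‖a‖)]

theorem elt_eq (x : D A f) (N : ℕ) (hN : ∀ n ≥ N, x.val (n + 1) = f n (x.val n)) :
    ((elt f N (x.val N) : D A f) : Bx A f) = (x : Bx A f) := by
  refine coe_eq_of _ _ ?_
  filter_upwards [eventually_ge_atTop N] with m hm
  rw [val_elt]
  induction m, hm using Nat.le_induction with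
  | base => rw [seq_self]
  | succ m hm ih => rw [seq_succ _ _ _ hm, ih, hN m hm]

variable (f) in
/-- the map into the completion -/
def io (n : ℕ) : A n →⋆ₐ[ℂ] Bx A f where
  toFun a := ((elt f n a : D A f) : Bx A f)
  map_one' := by
    rw [← Completion.coe_one]
    refine coe_eq_of _ _ ?_
    filter_upwards [eventually_ge_atTop n] with m hm
    rw [val_elt, val_one]
    have := seq_alg (f := f) n 1 m hm
    rwa [map_one, map_one] at this
  map_mul' a b := by
    rw [← Completion.coe_mul]
    refine coe_eq_of _ _ ?_
    filter_upwards [eventually_ge_atTop n] with m hm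
    rw [val_mul, val_elt, val_elt, val_elt, seq_mul _ _ _ _ hm]
  map_zero' := by
    rw [← Completion.coe_zero]
    refine coe_eq_of _ _ ?_
    filter_upwards [eventually_ge_atTop n] with m hm
    rw [val_elt, val_zero]
    have := seq_alg (f := f) n 0 m hm
    rwa [map_zero, map_zero] at this
  map_add' a b := by
    rw [← Completion.coe_add]
    refine coe_eq_of _ _ ?_
    filter_upwards [eventually_ge_atTop n] with m hm
    rw [val_add, val_elt, val_elt, val_elt, seq_add _ _ _ _ hm]
  commutes' c := by
    have : algebraMap ℂ (Bx A f) c = ((algebraMap ℂ (D A f) c : D A f) : Bx A f) := rfl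
    rw [this]
    refine coe_eq_of _ _ ?_
    filter_upwards [eventually_ge_atTop n] with m hm
    rw [val_elt, seq_alg _ _ _ hm]
    rfl
  map_star' a := by
    rw [star_coe]
    refine coe_eq_of _ _ ?_
    filter_upwards [eventually_ge_atTop n] with m hm
    rw [val_star, val_elt, val_elt, seq_star _ _ _ hm]

end

end LimH22

theorem exists_limit (A : ℕ → Type) [∀ n, CStarAlgebra (A n)]
    (f : ∀ n, A n →⋆ₐ[ℂ] A (n + 1)) (hf : ∀ n a, ‖f n a‖ = ‖a‖) :
    ∃ (B : Type) (_ : CStarAlgebra B) (ι : ∀ n, A n →⋆ₐ[ℂ] B),
      (∀ n a, ι (n + 1) (f n a) = ι n a) ∧ (∀ n a, ‖ι n a‖ = ‖a‖) ∧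
        Dense (⋃ n, Set.range (ι n)) := by
  have : Fact (∀ n a, ‖f n a‖ = ‖a‖) := ⟨hf⟩
  refine ⟨LimH22.Bx A f, inferInstance, LimH22.io f, ?_, ?_, ?_⟩
  · intro n a
    refine LimH22.coe_eq_of _ _ ?_
    filter_upwards [eventually_ge_atTop (n + 1)] with m hm
    rw [LimH22.val_elt, LimH22.val_elt, LimH22.seq_next _ _ _ hm]
  · intro n a
    change ‖((LimH22.elt f n a : LimH22.D A f) : LimH22.Bx A f)‖ = ‖a‖
    rw [UniformSpace.Completion.norm_coe, LimH22.norm_def,
      LimH22.nrm_eq_of hf (LimH22.elt f n a) n (fun m hm => LimH22.seq_succ n a m hm), LimH22.val_elt,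
      LimH22.seq_self]
  · have h : Dense (Set.range ((↑) : LimH22.D A f → LimH22.Bx A f)) :=
      UniformSpace.Completion.denseRange_coe
    refine h.mono ?_
    rintro _ ⟨x, rfl⟩
    obtain ⟨N, hN⟩ := x.ev
    exact Set.mem_iUnion.mpr ⟨N, x.val N, LimH22.elt_eq x N hN⟩

end

end Pool.Agent.Helper9.VI
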