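import Pool.Agent.Helper9.VI.Abs.LimSys
import Pool.Agent.Helper9.VI.Abs.GenP

/-!
# VI-RC: the radius of comparison of the limit is at least 1/3

PROOF. `one1 x : CStarMatrix (Fin 1) (Fin 1) B` is the matrix with entry `x`. `p = ι 0 (d 0)`,
`q = ι 0 (d 1 + d 2)`.
* `quasi_d`: for a `QuasiTrace τ`, `s x = τ.t 1 (one1 x)` satisfies on `B`: `s (x* x) = s (x x*)`, and `s` is
  additive on commutative *-subalgebras (the image of a commutative *-subalgebra under `one1`). The image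
  `D'` of `S.D` under `ι 0` is commutative. By `d_equiv`:
  `s (ι (d 0)) = ∑ s (ι (u* u)) = ∑ s (ι (u u*)) = s (ι (d i))`, for `i = 1, 2`; and `d i ∈ D` (as sums of
  elements of `D`), so `1 = s 1 = s (ι d 0) + s (ι d 1) + s (ι d 2)`. So `s p = 1/3`, `s q = 2/3`.
* `dim_p`, `dim_q`: `dimFun_proj` (`one1 p`, `one1 q` are star projections, `d 1 * d 2 = 0` because `d 1 + d 2 = 1 - d 0` is a
  projection or from the sum being a projection).
* `not_cuntz`: if `v_k b v_k* → a` then for some `k` the `(0,0)` entry satisfies `‖v q v* - p‖ < 1` with `v ∈ B`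
  (`CStarMatrix.norm_entry_le_norm` or: entries are continuous); by density (`Lim.approx`, continuity) the
  same with `v = ι n a`, and then `‖a up(d1 + d2) a* - up (d 0)‖ < 1` in `A n` by `norm_ι`, `ι_up`:
  contradiction to `nocomp`.
* `rc_ge`: if `HasComparison B r` with `r < 1/3` then `CuntzLE (one1 p) (one1 q)`, contradiction. So every `r` in the
  set is `≥ 1/3` and the infimum is `≥ 1/3`.
-/

namespace Pool.Agent.Helper9.VI

open Filter Topology
open scoped ComplexOrder ENNReal NNReal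

noncomputable section

variable {S : Sys} {B : Type} [CStarAlgebra B] [PartialOrder B] [StarOrderedRing B]

/-- the `1 × 1` matrix with entry `x` -/
def one1 (x : B) : CStarMatrix (Fin 1) (Fin 1) B := fun _ _ => x

/-- `one1` as a *-homomorphism -/
def one1Hom : B →⋆ₐ[ℂ] CStarMatrix (Fin 1) (Fin 1) B where
  toFun := one1
  map_one' := by
    ext i j
    fin_cases i; fin_cases j
    simp [one1]
  map_mul' x y := by
    ext i j
    simp [one1, CStarMatrix.mul_apply]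
  map_zero' := by
    ext i j
    simp [one1, CStarMatrix.zero_apply]
  map_add' x y := by
    ext i j
    simp [one1]
  commutes' r := by
    ext i j
    fin_cases i; fin_cases j
    simp [one1, CStarMatrix.algebraMap_apply]
  map_star' x := by
    ext i j
    simp [one1, CStarMatrix.star_apply]

theorem quasi_d (L : Lim S B) (τ : QuasiTrace B) :
    τ.t 1 (one1 (L.ι 0 (S.d 0))) = 1 / 3 ∧ τ.t 1 (one1 (L.ι 0 (S.d 1 + S.d 2))) = 2 / 3 := by
  set Φ : S.A 0 →⋆ₐ[ℂ] CStarMatrix (Fin 1) (Fin 1) B := one1Hom.comp (L.ι 0) with hΦ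
  have hΦa : ∀ x, Φ x = one1 (L.ι 0 x) := fun x => rfl
  have hQ := τ.isQ 1
  have hcomm : ∀ x ∈ S.D.map Φ, ∀ y ∈ S.D.map Φ, x * y = y * x := by
    rintro x hx y hy
    obtain ⟨x', hx', rfl⟩ := StarSubalgebra.mem_map.1 hx
    obtain ⟨y', hy', rfl⟩ := StarSubalgebra.mem_map.1 hy
    rw [← map_mul, ← map_mul, S.D_comm x' hx' y' hy']
  have hmem : ∀ x ∈ S.D, Φ x ∈ S.D.map Φ := fun x hx => StarSubalgebra.mem_map.2 ⟨x, hx, rfl⟩
  have hadd : ∀ x ∈ S.D, ∀ y ∈ S.D, τ.t 1 (Φ (x + y)) = τ.t 1 (Φ x) + τ.t 1 (Φ y) := by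
    intro x hx y hy
    rw [map_add]
    exact (hQ.linear _ hcomm _ (hmem x hx) _ (hmem y hy) 1).1
  have hzero : τ.t 1 (Φ 0) = 0 := by
    have h1 := (hQ.linear _ hcomm _ (hmem 0 (zero_mem _)) _ (hmem 0 (zero_mem _)) 0).2
    rw [zero_smul, zero_mul] at h1
    rw [map_zero]
    exact h1
  have hsum : ∀ (k : ℕ) (x : Fin k → S.A 0), (∀ l, x l ∈ S.D) →
      τ.t 1 (Φ (∑ l, x l)) = ∑ l, τ.t 1 (Φ (x l)) := by
    intro k
    induction k with
    | zero => intro x _; simpa using hzero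
    | succ k ih =>
      intro x hx
      rw [Fin.sum_univ_castSucc, Fin.sum_univ_castSucc, hadd _ (sum_mem fun l _ => hx _) _ (hx _),
        ih _ fun l => hx _]
  have htr : ∀ u : S.A 0, τ.t 1 (Φ (star u * u)) = τ.t 1 (Φ (u * star u)) := by
    intro u
    rw [map_mul, map_star, map_mul, map_star]
    exact hQ.tracial _
  have hd : ∀ i, S.d i ∈ S.D := by
    intro i
    obtain ⟨k, u, _, h2, _, h4⟩ := S.d_equiv i
    rw [← h4]
    exact sum_mem fun l _ => h2 l
  have heq : ∀ i, τ.t 1 (Φ (S.d 0)) = τ.t 1 (Φ (S.d i)) := by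
    intro i
    obtain ⟨k, u, h1, h2, h3, h4⟩ := S.d_equiv i
    rw [← h3, ← h4, hsum _ _ h1, hsum _ _ h2]
    exact Finset.sum_congr rfl fun l _ => htr (u l)
  have hone : τ.t 1 (Φ 1) = 1 := by
    rw [map_one]
    exact τ.normalized
  have h12 : τ.t 1 (Φ (S.d 1 + S.d 2)) = τ.t 1 (Φ (S.d 1)) + τ.t 1 (Φ (S.d 2)) :=
    hadd _ (hd 1) _ (hd 2)
  have h3 : τ.t 1 (Φ (S.d 0)) + τ.t 1 (Φ (S.d 1 + S.d 2)) = 1 := by
    rw [← hadd _ (hd 0) _ (add_mem (hd 1) (hd 2)), ← add_assoc, S.d_sum, hone]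
  rw [h12, ← heq 1, ← heq 2] at h3
  have h4 : τ.t 1 (Φ (S.d 0)) = 1 / 3 := by
    linear_combination h3 / 3
  refine ⟨h4, ?_⟩
  change τ.t 1 (Φ (S.d 1 + S.d 2)) = 2 / 3
  rw [h12, ← heq 1, ← heq 2, h4]
  norm_num

theorem not_cuntz (L : Lim S B) :
    ¬ CuntzLE (one1 (L.ι 0 (S.d 0))) (one1 (L.ι 0 (S.d 1 + S.d 2))) := by
  rintro ⟨v, hv⟩
  -- the entries converge
  have h1 : Tendsto (fun k => v k 0 0 * L.ι 0 (S.d 1 + S.d 2) * star (v k 0 0)) atTop
      (𝓝 (L.ι 0 (S.d 0))) := by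
    have h2 : Tendsto (fun k => (v k * one1 (L.ι 0 (S.d 1 + S.d 2)) * (v k).conjTranspose) 0 0)
        atTop (𝓝 ((one1 (L.ι 0 (S.d 0)) : CStarMatrix (Fin 1) (Fin 1) B) 0 0)) := by
      rw [Metric.tendsto_atTop] at hv ⊢
      intro ε hε
      obtain ⟨N, hN⟩ := hv ε hε
      refine ⟨N, fun n hn => lt_of_le_of_lt ?_ (hN n hn)⟩
      rw [dist_eq_norm, dist_eq_norm]
      exact CStarMatrix.norm_entry_le_norm (M := v n * one1 (L.ι 0 (S.d 1 + S.d 2)) *
        (v n).conjTranspose - one1 (L.ι 0 (S.d 0))) (i := 0) (j := 0)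
    have h3 : (fun k => (v k * one1 (L.ι 0 (S.d 1 + S.d 2)) * (v k).conjTranspose) 0 0) =
        fun k => v k 0 0 * L.ι 0 (S.d 1 + S.d 2) * star (v k 0 0) := by
      funext k
      simp [CStarMatrix.mul_apply, one1, CStarMatrix.conjTranspose_apply]
    rw [h3] at h2
    exact h2
  rw [Metric.tendsto_atTop] at h1
  obtain ⟨N, hN⟩ := h1 1 one_pos
  have h4 := hN N le_rfl
  rw [dist_eq_norm] at h4
  set w := v N 0 0
  have hopen : IsOpen {x : B | ‖x * L.ι 0 (S.d 1 + S.d 2) * star x - L.ι 0 (S.d 0)‖ < 1} := by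
    apply isOpen_lt _ continuous_const
    fun_prop
  obtain ⟨x, hx, hx2⟩ := L.dense.inter_open_nonempty _ hopen ⟨w, h4⟩
  rw [Set.mem_iUnion] at hx2
  obtain ⟨n, a, rfl⟩ := hx2
  apply S.nocomp n a
  rw [← L.norm_ι n, map_sub, map_mul, map_mul, map_star, L.ι_up, L.ι_up]
  exact hx

theorem rc_ge (L : Lim S B) : (1 / 3 : ℝ≥0∞) ≤ radiusOfComparison B := by
  have hp : IsStarProjection (one1 (L.ι 0 (S.d 0))) := by
    have h1 := (S.d_proj 0).map (one1Hom.comp (L.ι 0))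
    exact h1
  have hq : IsStarProjection (one1 (L.ι 0 (S.d 1 + S.d 2))) := by
    have h0 : S.d 1 + S.d 2 = 1 - S.d 0 := by
      rw [← S.d_sum]
      abel
    have h1 : IsStarProjection (S.d 1 + S.d 2) := by
      rw [h0]
      exact (S.d_proj 0).one_sub
    have h2 := h1.map (one1Hom.comp (L.ι 0))
    exact h2
  refine le_iInf₂ fun r hr => ?_
  by_contra hlt
  rw [not_le] at hlt
  apply not_cuntz L
  apply hr
  · exact hp.nonneg
  · exact hq.nonneg
  · intro τ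
    obtain ⟨h1, h2⟩ := quasi_d L τ
    rw [QuasiTrace.dim, QuasiTrace.dim, dimFun_proj hp, dimFun_proj hq, h1, h2]
    have h3 : (r : ℝ) < 1 / 3 := by
      have h4 : (r : ℝ≥0∞) < ((1 / 3 : ℝ≥0) : ℝ≥0∞) := by
        rw [ENNReal.coe_div (by norm_num)]
        simpa using hlt
      have h5 := ENNReal.coe_lt_coe.1 h4
      have h6 := NNReal.coe_lt_coe.2 h5
      simpa using h6
    have h7 : ((1 / 3 : ℂ)).re = 1 / 3 := by norm_num
    have h8 : ((2 / 3 : ℂ)).re = 2 / 3 := by norm_num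
    rw [h7, h8]
    linarith

end

end Pool.Agent.Helper9.VI
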