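import Pool.Agent.Helper9.VI.Abs.LimSys
import Pool.Agent.Helper9.VI.Abs.Mat

/-!
# VI-SIM: the limit is a simple ring

PROOF. Let `x ≠ 0`, `I` a two-sided ideal containing `x`. After scaling `‖x‖ = 1`. Choose `n`, `a ∈ A n`
with `‖x - ι a‖ < 1/8` (`Lim.approx`), so `‖a‖ > 7/8`; `k` with `‖mat‖ > 3/4`, `mat = ev (n+k) (iter n k a)`
(`norm_ev`); `E, G` from `mat_norming`. In `A (n+k+1)` put `e = β none E` (basic), `g = β none G`:
`e * phi (iter n k a) * g = β none (E mat G) = ‖mat‖ • e`. In `B` (write `e`, `g` for the images):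
`‖e x g - ‖mat‖ e‖ = ‖e (x - ι a) g‖ < 1/8`. So `w := e x g e + (1 - e)` satisfies
`‖w - (‖mat‖ e + (1 - e))‖ < 1/8`, where `‖mat‖ e + (1 - e)` is invertible with inverse `‖mat‖⁻¹ e + (1 - e)` of
norm `≤ 4/3 + ..≤ 7/3` (or `≤ 4/3`); so `w` is a unit, and `w e = e x g e`, so `e = w⁻¹ e x g e ∈ I`. By
`basic_full` `1 = ∑ star r * e * r ∈ I`. `B` is nontrivial because `‖ι (phi ..)‖`, `S.J` non-empty:
`ev n 1 = 1 ≠ 0`. Mathlib: `IsSimpleRing`, `TwoSidedIdeal`.
-/

namespace Pool.Agent.Helper9.VI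

open Filter Topology
open scoped ComplexOrder ENNReal NNReal

noncomputable section

variable {S : Sys} {B : Type} [CStarAlgebra B]

theorem lim_nontrivial16 (L : Lim S B) : Nontrivial B := by
  have h1 : (1 : Mx (S.J 0)) ≠ 0 := by
    obtain ⟨j⟩ := S.ne 0
    intro h
    have h2 := congrArg (fun M : Mx (S.J 0) => M j j) h
    simp only [CStarMatrix.one_apply_eq, CStarMatrix.zero_apply] at h2
    exact one_ne_zero h2
  have h2 : (1 : S.A 0) ≠ 0 := by
    intro h
    apply h1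
    rw [← map_one (S.ev 0), h, map_zero]
  refine ⟨1, 0, fun h => h2 ?_⟩
  have h3 := L.norm_ι 0 1
  rw [map_one, h, norm_zero] at h3
  exact norm_eq_zero.1 h3.symm

theorem one_mem16 (L : Lim S B) (I : TwoSidedIdeal B) (x : B) (hx : x ∈ I) (hx1 : ‖x‖ = 1) :
    (1 : B) ∈ I := by
  obtain ⟨n, a, ha⟩ := L.approx x (1 / 8) (by norm_num)
  have ha1 : 7 / 8 < ‖a‖ := by
    have h1 : ‖x‖ ≤ ‖x - L.ι n a‖ + ‖L.ι n a‖ := by
      have := norm_add_le (x - L.ι n a) (L.ι n a)
      rwa [sub_add_cancel] at this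
    rw [L.norm_ι, hx1] at h1
    linarith
  obtain ⟨k, hk⟩ := S.norm_ev n a (1 / 8) (by norm_num)
  obtain ⟨E, G, hE, hEtr, hG, hEG⟩ := mat_norming (S.ev (n + k) (S.iter n k a))
  set m := S.ev (n + k) (S.iter n k a) with hm
  have hm1 : 3 / 4 < ‖m‖ := by linarith
  set c : ℂ := (‖m‖ : ℂ) with hc
  have hc0 : c ≠ 0 := by
    rw [hc]
    exact_mod_cast (by linarith : ‖m‖ ≠ 0)
  set e := S.β (n + k) none E with he
  set g := S.β (n + k) none G with hg
  have hphi : e * S.phi (n + k) (S.iter n k a) * g = c • e := by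
    rw [S.phi_apply, mul_add, Finset.mul_sum, Finset.mul_sum]
    have h1 : ∀ i, e * S.α (n + k) i (S.iter n k a) = 0 := fun i => S.βα _ _ _ _ _
    have h2 : ∑ t, e * S.β (n + k) t m = e * S.β (n + k) none m :=
      Finset.sum_eq_single none (fun t _ ht => S.ββ _ _ _ (Ne.symm ht) _ _) (by simp)
    rw [h2]
    simp only [h1, Finset.sum_const_zero, zero_add]
    rw [he, hg, ← map_mul, ← map_mul, hEG, map_smul]
  have hbasic : e ∈ S.basic (n + k + 1) := S.basic_β _ E hE hEtr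
  set e' := L.ι (n + k + 1) e with he'
  set g' := L.ι (n + k + 1) g with hg'
  have hax : L.ι (n + k + 1) (S.phi (n + k) (S.iter n k a)) = L.ι n a := by
    rw [L.ι_phi, L.ι_iter]
  have hB : e' * L.ι n a * g' = c • e' := by
    rw [← hax, he', hg', ← map_mul, ← map_mul, hphi, map_smul]
  have hen : ‖e'‖ ≤ 1 := by
    rw [he', L.norm_ι]
    exact norm_star_proj _ (S.basic_proj _ _ hbasic)
  have hgn : ‖g'‖ ≤ 1 := by
    rw [hg', L.norm_ι]
    exact (NonUnitalStarAlgHom.norm_apply_le (S.β (n + k) none) G).trans hG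
  have hproj := S.basic_proj _ _ hbasic
  have hidem : e' * e' = e' := by
    rw [he', ← map_mul]
    congr 1
    exact hproj.isIdempotentElem
  have hsa : star e' = e' := by
    rw [he', ← map_star]
    congr 1
    exact hproj.isSelfAdjoint
  have h1en : ‖1 - e'‖ ≤ 1 := by
    refine norm_star_proj _ ⟨?_, ?_⟩
    · show (1 - e') * (1 - e') = 1 - e'
      rw [mul_sub, sub_mul, sub_mul, hidem]
      simp
    · show star (1 - e') = 1 - e'
      rw [star_sub, star_one, hsa]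
  have hdiff : ‖e' * x * g' - c • e'‖ < 1 / 8 := by
    have h1 : e' * x * g' - c • e' = e' * (x - L.ι n a) * g' := by
      rw [← hB]; noncomm_ring
    rw [h1]
    calc ‖e' * (x - L.ι n a) * g'‖ ≤ ‖e' * (x - L.ι n a)‖ * ‖g'‖ := norm_mul_le _ _
      _ ≤ ‖e'‖ * ‖x - L.ι n a‖ * ‖g'‖ := by gcongr; exact norm_mul_le _ _
      _ ≤ 1 * ‖x - L.ι n a‖ * 1 := by gcongr
      _ < 1 / 8 := by simpa using ha
  set w := e' * x * g' * e' + (1 - e') with hw
  set u := c • e' + (1 - e') with hu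
  set ui := c⁻¹ • e' + (1 - e') with hui
  have he1 : e' * (1 - e') = 0 := by rw [mul_sub, mul_one, hidem, sub_self]
  have he2 : (1 - e') * e' = 0 := by rw [sub_mul, one_mul, hidem, sub_self]
  have he3 : (1 - e') * (1 - e') = 1 - e' := by
    rw [mul_sub, mul_one, he2, sub_zero]
  have huu : u * ui = 1 := by
    rw [hu, hui, add_mul, mul_add, mul_add, smul_mul_smul_comm, hidem, smul_mul_assoc, he1,
      mul_smul_comm, he2, he3, mul_inv_cancel₀ hc0]
    simp
  have huu' : ui * u = 1 := by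
    rw [hu, hui, add_mul, mul_add, mul_add, smul_mul_smul_comm, hidem, smul_mul_assoc, he1,
      mul_smul_comm, he2, he3, inv_mul_cancel₀ hc0]
    simp
  have hwu : ‖w - u‖ < 1 / 8 := by
    have h1 : w - u = (e' * x * g' - c • e') * e' := by
      rw [hw, hu, sub_mul, smul_mul_assoc, hidem]
      abel
    rw [h1]
    calc ‖(e' * x * g' - c • e') * e'‖ ≤ ‖e' * x * g' - c • e'‖ * ‖e'‖ := norm_mul_le _ _
      _ ≤ ‖e' * x * g' - c • e'‖ * 1 := by gcongr
      _ < 1 / 8 := by rw [mul_one]; exact hdiff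
  have hnui : ‖ui‖ ≤ 7 / 3 := by
    have h1 : ‖c⁻¹‖ ≤ 4 / 3 := by
      rw [norm_inv, hc, Complex.norm_real, norm_norm]
      rw [inv_le_comm₀ (by linarith) (by norm_num)]
      linarith
    calc ‖ui‖ ≤ ‖c⁻¹ • e'‖ + ‖1 - e'‖ := norm_add_le _ _
      _ ≤ ‖c⁻¹‖ * ‖e'‖ + 1 := by rw [norm_smul]; gcongr
      _ ≤ 4 / 3 * 1 + 1 := by gcongr
      _ = 7 / 3 := by norm_num
  have hz : ‖ui * (u - w)‖ < 1 := by
    calc ‖ui * (u - w)‖ ≤ ‖ui‖ * ‖u - w‖ := norm_mul_le _ _
      _ ≤ 7 / 3 * ‖u - w‖ := by gcongr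
      _ < 7 / 3 * (1 / 8) := by
        rw [norm_sub_rev] at hwu
        linarith
      _ < 1 := by norm_num
  obtain ⟨y, hy⟩ : ∃ y, y * w = 1 := by
    have h1 : IsUnit (1 - ui * (u - w)) := isUnit_one_sub_of_norm_lt_one hz
    obtain ⟨v, hv⟩ := h1
    refine ⟨↑v⁻¹ * ui, ?_⟩
    have h2 : ui * w = v := by
      rw [hv, mul_sub, huu']
      abel
    rw [mul_assoc, h2, Units.inv_mul]
  have hwe : w * e' = e' * x * g' * e' := by
    rw [hw, add_mul, he2, add_zero, mul_assoc _ e' e', hidem]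
  have heI : e' ∈ I := by
    have h1 : e' = y * (e' * x * (g' * e')) := by
      rw [← mul_assoc (e' * x) g' e', ← hwe, ← mul_assoc, hy, one_mul]
    rw [h1]
    exact I.mul_mem_left _ _ (I.mul_mem_right _ _ (I.mul_mem_left _ _ hx))
  obtain ⟨l, r, hr⟩ := S.basic_full _ e hbasic
  have h1 : ∑ i, star (L.ι (n + k + 1) (r i)) * e' * L.ι (n + k + 1) (r i) = 1 := by
    rw [← map_one (L.ι (n + k + 1)), ← hr, map_sum]
    refine Finset.sum_congr rfl fun i _ => ?_
    rw [map_mul, map_mul, map_star]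
  rw [← h1]
  refine sum_mem fun i _ => ?_
  exact I.mul_mem_right _ _ (I.mul_mem_left _ _ heI)

theorem lim_simple (L : Lim S B) : IsSimpleRing B := by
  have hnt := lim_nontrivial16 L
  refine ⟨{ exists_pair_ne := ?_, eq_bot_or_eq_top := fun I => ?_ }⟩
  · exact exists_pair_ne _
  · by_cases h : I = ⊥
    · exact Or.inl h
    · right
      have h1 : ∃ x ∈ I, x ≠ 0 := by
        by_contra hcon
        push Not at hcon
        apply h
        rw [eq_bot_iff]
        intro x hx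
        rw [TwoSidedIdeal.mem_bot]
        exact hcon x hx
      obtain ⟨x, hx, hx0⟩ := h1
      rw [← TwoSidedIdeal.one_mem_iff]
      refine one_mem16 L I (((‖x‖ : ℂ)⁻¹ • (1 : B)) * x) (I.mul_mem_left _ _ hx) ?_
      rw [smul_mul_assoc, one_mul, norm_smul, norm_inv, Complex.norm_real, norm_norm]
      exact inv_mul_cancel₀ (norm_ne_zero_iff.2 hx0)

end

end Pool.Agent.Helper9.VI
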