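import Pool.Agent.Helper9.VI.Abs.LimSys

/-!
# VI-TRE: existence of a tracial state

PROOF. For each `m` the functional `σ m : A m → ℂ`, `σ m a = tr (ev m a) / |J m|` is linear, tracial,
positive, normalised, of norm `≤ 1`. For `b : B` choose `ap m b : A m` almost as close to `b` as
possible, so that `ι m (ap m b) → b`. Let `U` be a free ultrafilter on `ℕ` and
`f b = lim_U σ m (ap m b)`. If `x m : A m` and `ι m (x m) → b` then `σ m (x m) → f b` along `U`. So `f` is linear,
tracial, positive, normalised and bounded.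
-/

namespace Pool.Agent.Helper9.VI

open Filter Topology
open scoped ComplexOrder ENNReal NNReal

noncomputable section

namespace TrEx

/-- the normalised trace of `ev m a` -/
def sg (S : Sys) (m : ℕ) (a : S.A m) : ℂ := (S.ev m a).tr / (Fintype.card (S.J m) : ℂ)

theorem tr_add {J : Type} [Fintype J] (X Y : Mx J) : (X + Y).tr = X.tr + Y.tr := by
  simp only [Mx.tr, CStarMatrix.add_apply, Finset.sum_add_distrib]

theorem tr_smul {J : Type} [Fintype J] (c : ℂ) (X : Mx J) : (c • X).tr = c * X.tr := by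
  simp only [Mx.tr, CStarMatrix.smul_apply, smul_eq_mul, Finset.mul_sum]

theorem tr_mul_comm {J : Type} [Fintype J] (X Y : Mx J) : Mx.tr (X * Y) = Mx.tr (Y * X) := by
  simp only [Mx.tr, CStarMatrix.mul_apply]
  rw [Finset.sum_comm]
  refine Finset.sum_congr rfl fun i _ => Finset.sum_congr rfl fun j _ => mul_comm _ _

theorem tr_one {J : Type} [Fintype J] [DecidableEq J] : (1 : Mx J).tr = (Fintype.card J : ℂ) := by
  simp [Mx.tr]

theorem tr_star_mul {J : Type} [Fintype J] (X : Mx J) : 0 ≤ Mx.tr (star X * X) := by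
  simp only [Mx.tr, CStarMatrix.mul_apply, CStarMatrix.star_apply]
  refine Finset.sum_nonneg fun i _ => Finset.sum_nonneg fun j _ => ?_
  exact star_mul_self_nonneg _

theorem norm_tr_le {J : Type} [Fintype J] [DecidableEq J] (X : Mx J) :
    ‖X.tr‖ ≤ (Fintype.card J : ℝ) * ‖X‖ := by
  unfold Mx.tr
  refine (norm_sum_le _ _).trans ?_
  refine (Finset.sum_le_sum fun i _ => CStarMatrix.norm_entry_le_norm (M := X) (i := i) (j := i)).trans ?_
  simp

section

variable (S : Sys)

theorem sg_add (m : ℕ) (a b : S.A m) : sg S m (a + b) = sg S m a + sg S m b := by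
  simp only [sg, map_add, tr_add, add_div]

theorem sg_smul (m : ℕ) (c : ℂ) (a : S.A m) : sg S m (c • a) = c * sg S m a := by
  simp only [sg, map_smul, tr_smul, mul_div_assoc]

theorem sg_comm (m : ℕ) (a b : S.A m) : sg S m (a * b) = sg S m (b * a) := by
  simp only [sg, map_mul]
  rw [tr_mul_comm]

theorem card_ne (m : ℕ) : (Fintype.card (S.J m) : ℂ) ≠ 0 := by
  exact_mod_cast Fintype.card_ne_zero

theorem sg_one (m : ℕ) : sg S m 1 = 1 := by
  simp only [sg, map_one, tr_one]
  exact div_self (card_ne S m)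

theorem sg_pos (m : ℕ) (a : S.A m) : 0 ≤ sg S m (star a * a) := by
  simp only [sg, map_mul, map_star]
  have h1 := tr_star_mul (S.ev m a)
  have h2 : (0 : ℂ) ≤ ((Fintype.card (S.J m) : ℂ))⁻¹ := by
    have : (0 : ℝ) ≤ ((Fintype.card (S.J m) : ℝ))⁻¹ := by positivity
    rw [← Complex.ofReal_natCast, ← Complex.ofReal_inv]
    exact_mod_cast this
  rw [div_eq_mul_inv]
  exact mul_nonneg h1 h2

theorem sg_norm (m : ℕ) (a : S.A m) : ‖sg S m a‖ ≤ ‖a‖ := by
  have h1 := norm_tr_le (S.ev m a)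
  have h2 : ‖S.ev m a‖ ≤ ‖a‖ := NonUnitalStarAlgHom.norm_apply_le (S.ev m) a
  have h3 : (0 : ℝ) < Fintype.card (S.J m) := by exact_mod_cast Fintype.card_pos
  rw [sg, norm_div, div_le_iff₀ (by simpa using h3)]
  have h4 : ‖((Fintype.card (S.J m) : ℕ) : ℂ)‖ = (Fintype.card (S.J m) : ℝ) := by simp
  rw [h4]
  calc ‖(S.ev m a).tr‖ ≤ _ := h1
    _ ≤ (Fintype.card (S.J m) : ℝ) * ‖a‖ := by gcongr
    _ = _ := by ring

theorem sg_sub (m : ℕ) (a b : S.A m) : sg S m (a - b) = sg S m a - sg S m b := by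
  have h : sg S m (a - b) + sg S m b = sg S m a := by rw [← sg_add, sub_add_cancel]
  rw [← h]; ring

end

variable {S : Sys} {B : Type} [CStarAlgebra B]

theorem ap_exists (L : Lim S B) (m : ℕ) (b : B) :
    ∃ a : S.A m, ‖b - L.ι m a‖ < Metric.infDist b (Set.range (L.ι m)) + 1 / ((m : ℝ) + 1) := by
  have h0 : (0 : ℝ) < 1 / ((m : ℝ) + 1) := by positivity
  have h := (Metric.infDist_lt_iff (s := Set.range (L.ι m)) (x := b)
    (r := Metric.infDist b (Set.range (L.ι m)) + 1 / ((m : ℝ) + 1))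
    (Set.range_nonempty _)).1 (by linarith)
  obtain ⟨y, ⟨a, rfl⟩, hy⟩ := h
  exact ⟨a, by rwa [dist_eq_norm] at hy⟩

/-- a good approximation of `b` in `A m` -/
def ap (L : Lim S B) (m : ℕ) (b : B) : S.A m := (ap_exists L m b).choose

theorem ap_spec (L : Lim S B) (m : ℕ) (b : B) :
    ‖b - L.ι m (ap L m b)‖ < Metric.infDist b (Set.range (L.ι m)) + 1 / ((m : ℝ) + 1) :=
  (ap_exists L m b).choose_spec

theorem ap_tendsto (L : Lim S B) (b : B) :
    Tendsto (fun m => L.ι m (ap L m b)) atTop (𝓝 b) := by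
  rw [tendsto_iff_norm_sub_tendsto_zero]
  have h1 : Tendsto (fun m : ℕ => Metric.infDist b (Set.range (L.ι m))) atTop (𝓝 0) := by
    rw [Metric.tendsto_atTop]
    intro ε hε
    obtain ⟨n, a, ha⟩ := L.approx b ε hε
    refine ⟨n, fun m hm => ?_⟩
    obtain ⟨k, rfl⟩ := Nat.exists_eq_add_of_le hm
    have h2 : L.ι n a ∈ Set.range (L.ι (n + k)) := ⟨S.iter n k a, L.ι_iter n k a⟩
    have h3 := Metric.infDist_le_dist_of_mem (x := b) h2
    rw [dist_eq_norm] at h3
    have h4 : 0 ≤ Metric.infDist b (Set.range (L.ι (n + k))) := Metric.infDist_nonneg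
    rw [Real.dist_eq, sub_zero, abs_of_nonneg h4]
    exact lt_of_le_of_lt h3 ha
  have h2 : Tendsto (fun m : ℕ => Metric.infDist b (Set.range (L.ι m)) + 1 / ((m : ℝ) + 1))
      atTop (𝓝 0) := by
    have := h1.add (tendsto_one_div_add_atTop_nhds_zero_nat (𝕜 := ℝ))
    simpa using this
  refine squeeze_zero (fun _ => norm_nonneg _) (fun m => ?_) h2
  rw [norm_sub_rev]
  exact (ap_spec L m b).le

/-- the ultrafilter -/
abbrev UF : Ultrafilter ℕ := hyperfilter ℕ

theorem UF_le : (UF : Filter ℕ) ≤ atTop := by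
  have := hyperfilter_le_cofinite (α := ℕ)
  rwa [Nat.cofinite_eq_atTop] at this

theorem lim_exists (L : Lim S B) (b : B) :
    ∃ z : ℂ, Tendsto (fun m => sg S m (ap L m b)) UF (𝓝 z) := by
  have hb : ∀ m, sg S m (ap L m b) ∈ Metric.closedBall (0 : ℂ) (2 * ‖b‖ + 1) := by
    intro m
    rw [mem_closedBall_zero_iff]
    have h1 := sg_norm S m (ap L m b)
    have h2 := ap_spec L m b
    have h3 : Metric.infDist b (Set.range (L.ι m)) ≤ dist b (L.ι m 0) :=
      Metric.infDist_le_dist_of_mem ⟨0, rfl⟩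
    rw [map_zero, dist_zero_right] at h3
    have h4 : (1 : ℝ) / ((m : ℝ) + 1) ≤ 1 := by
      rw [div_le_one (by positivity)]; linarith [(Nat.cast_nonneg m : (0:ℝ) ≤ m)]
    have h5 : ‖ap L m b‖ ≤ ‖b‖ + ‖b - L.ι m (ap L m b)‖ := by
      rw [← L.norm_ι m]
      have := norm_sub_norm_le (L.ι m (ap L m b)) b
      rw [norm_sub_rev] at this
      linarith
    linarith
  have hc : IsCompact (Metric.closedBall (0 : ℂ) (2 * ‖b‖ + 1)) := isCompact_closedBall _ _
  have hU : (↑(UF.map (fun m => sg S m (ap L m b))) : Filter ℂ) ≤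
      𝓟 (Metric.closedBall (0 : ℂ) (2 * ‖b‖ + 1)) := by
    rw [Filter.le_principal_iff]
    exact Filter.mem_map.2 (Filter.Eventually.of_forall fun m => hb m)
  obtain ⟨z, _, hz⟩ := hc.ultrafilter_le_nhds _ hU
  exact ⟨z, hz⟩

/-- the limit -/
def lm (L : Lim S B) (b : B) : ℂ := (lim_exists L b).choose

theorem lm_spec (L : Lim S B) (b : B) :
    Tendsto (fun m => sg S m (ap L m b)) UF (𝓝 (lm L b)) := (lim_exists L b).choose_spec

theorem lm_of_tendsto (L : Lim S B) (b : B) (x : ∀ m, S.A m)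
    (hx : Tendsto (fun m => L.ι m (x m)) atTop (𝓝 b)) :
    Tendsto (fun m => sg S m (x m)) UF (𝓝 (lm L b)) := by
  have h1 : Tendsto (fun m => L.ι m (x m) - L.ι m (ap L m b)) atTop (𝓝 0) := by
    have := hx.sub (ap_tendsto L b)
    simpa using this
  have h2 : Tendsto (fun m => sg S m (x m) - sg S m (ap L m b)) atTop (𝓝 0) := by
    rw [tendsto_zero_iff_norm_tendsto_zero] at h1 ⊢
    refine squeeze_zero (fun _ => norm_nonneg _) (fun m => ?_) h1
    rw [← sg_sub, ← map_sub, L.norm_ι]
    exact sg_norm S m _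
  have h3 := (h2.mono_left UF_le).add (lm_spec L b)
  simpa using h3

theorem lm_add (L : Lim S B) (b b' : B) : lm L (b + b') = lm L b + lm L b' := by
  have h1 := lm_of_tendsto L (b + b') (fun m => ap L m b + ap L m b')
    (by simpa only [map_add] using (ap_tendsto L b).add (ap_tendsto L b'))
  have h2 := (lm_spec L b).add (lm_spec L b')
  simp only [sg_add] at h1
  exact tendsto_nhds_unique h1 h2

theorem lm_smul (L : Lim S B) (c : ℂ) (b : B) : lm L (c • b) = c * lm L b := by
  have h1 := lm_of_tendsto L (c • b) (fun m => c • ap L m b)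
    (by simpa only [map_smul] using (ap_tendsto L b).const_smul c)
  have h2 := (lm_spec L b).const_mul c
  simp only [sg_smul] at h1
  exact tendsto_nhds_unique h1 h2

theorem lm_comm (L : Lim S B) (b b' : B) : lm L (b * b') = lm L (b' * b) := by
  have h1 := lm_of_tendsto L (b * b') (fun m => ap L m b * ap L m b')
    (by simpa only [map_mul] using (ap_tendsto L b).mul (ap_tendsto L b'))
  have h2 := lm_of_tendsto L (b' * b) (fun m => ap L m b' * ap L m b)
    (by simpa only [map_mul] using (ap_tendsto L b').mul (ap_tendsto L b))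
  have h3 : (fun m => sg S m (ap L m b * ap L m b')) = fun m => sg S m (ap L m b' * ap L m b) :=
    funext fun m => sg_comm S m _ _
  rw [h3] at h1
  exact tendsto_nhds_unique h1 h2

theorem lm_one (L : Lim S B) : lm L 1 = 1 := by
  have h1 := lm_of_tendsto L 1 (fun m => 1) (by simpa only [map_one] using tendsto_const_nhds)
  simp only [sg_one] at h1
  exact tendsto_nhds_unique h1 tendsto_const_nhds

theorem lm_pos (L : Lim S B) (b : B) : 0 ≤ lm L (star b * b) := by
  have h1 := lm_of_tendsto L (star b * b) (fun m => star (ap L m b) * ap L m b)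
    (by simpa only [map_mul, map_star] using (ap_tendsto L b).star.mul (ap_tendsto L b))
  exact ge_of_tendsto' h1 fun m => sg_pos S m _

theorem lm_norm (L : Lim S B) (b : B) : ‖lm L b‖ ≤ ‖b‖ := by
  have h1 := (lm_spec L b).norm
  have h2 : Tendsto (fun m => ‖L.ι m (ap L m b)‖) UF (𝓝 ‖b‖) :=
    ((ap_tendsto L b).norm).mono_left UF_le
  refine le_of_tendsto_of_tendsto' h1 h2 fun m => ?_
  rw [L.norm_ι]
  exact sg_norm S m _

/-- the limit trace -/
def lmL (L : Lim S B) : B →ₗ[ℂ] ℂ where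
  toFun := lm L
  map_add' := lm_add L
  map_smul' c b := by simp [lm_smul]

/-- the limit trace as a continuous functional -/
def lmC (L : Lim S B) : B →L[ℂ] ℂ := (lmL L).mkContinuous 1 fun b => by
  rw [one_mul]; exact lm_norm L b

end TrEx

variable {S : Sys} {B : Type} [CStarAlgebra B]

theorem trace_exists (L : Lim S B) : (tracialStates B).Nonempty := by
  refine ⟨StrongDual.toWeakDual (TrEx.lmC L), ?_, ?_, ?_⟩
  · exact fun a => TrEx.lm_pos L a
  · exact TrEx.lm_one L
  · exact fun a b => TrEx.lm_comm L a b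

end

end Pool.Agent.Helper9.VI
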