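import Pool.Agent.Helper9.VI.Abs.LimSys

/-!
# VI-TRU: uniqueness of the trace

PROOF.
* `tr_step`: for a tracial positive normalised functional `σ` on `A (n+1)`, put
  `σ' a = (∑ i, σ (α n i a)) * ((2 c + 1) / c)`. By `trace_β` `σ (β n t B) = tr B / (|J n| (2c+1))`, so
  `∑ t, σ (β n t 1) = (c+1)/(2c+1)` (`tr 1 = |J n|`, `|Option (Fin c)| = c + 1`), `σ' 1 = 1`, and
  `σ' ` is tracial and positive (`star (α a) * α a = α (star a * a)`), and
  `σ (phi a) = (c/(2c+1)) σ' a + ((c+1)/(2c+1)) tr (ev n a) / |J n|`.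
* `tr_diff`: for tracial states `f, g` on `A (n+k)` and `a ∈ A n`:
  `‖f (iter n k a) - g (iter n k a)‖ ≤ (1/2)^k * (2 ‖a‖)`. Induction on `k`: `c/(2c+1) ≤ 1/2`; `k = 0`:
  `‖f a‖ ≤ ‖a‖` for positive normalised functionals.
* `trace_unique`: restrict two tracial states of `B` to `A (n+k)` (via `ι`), let `k → ∞`: they agree on the
  dense union of the ranges, hence everywhere (continuity).
-/

namespace Pool.Agent.Helper9.VI

open Filter Topology
open scoped ComplexOrder ENNReal NNReal

noncomputable section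

/-- tracial states as linear functionals -/
structure IsTrState {A : Type} [CStarAlgebra A] (f : A →ₗ[ℂ] ℂ) : Prop where
  pos : ∀ a, 0 ≤ f (star a * a)
  one : f 1 = 1
  comm : ∀ a b, f (a * b) = f (b * a)

theorem IsTrState.map_star {A : Type} [CStarAlgebra A] {f : A →ₗ[ℂ] ℂ} (hf : IsTrState f) (a : A) :
    f (star a) = star (f a) := by
  have h1 := hf.pos (a + 1)
  have h2 := hf.pos (a + Complex.I • 1)
  have h0 := hf.pos a
  have e1 : f (star (a + 1) * (a + 1)) = f (star a * a) + f (star a) + f a + 1 := by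
    have : star (a + 1) * (a + 1) = star a * a + star a + a + 1 := by
      rw [star_add, star_one]; noncomm_ring
    rw [this, map_add, map_add, map_add, hf.one]
  have e2 : f (star (a + Complex.I • (1 : A)) * (a + Complex.I • (1 : A))) =
      f (star a * a) + Complex.I * f (star a) - Complex.I * f a + 1 := by
    have : star (a + Complex.I • (1 : A)) * (a + Complex.I • (1 : A)) =
        star a * a + Complex.I • star a - Complex.I • a + 1 := by
      rw [star_add, star_smul, star_one, add_mul, mul_add, mul_add]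
      simp only [mul_smul_comm, smul_mul_assoc, mul_one, one_mul, smul_smul]
      have hI : Complex.I * star Complex.I = 1 := by
        simp [Complex.I_mul_I]
      rw [hI, one_smul]
      have hI2 : star Complex.I = - Complex.I := by simp
      rw [hI2, neg_smul]
      abel
    rw [this, map_add, map_sub, map_add, map_smul, map_smul, hf.one, smul_eq_mul, smul_eq_mul]
  rw [e1] at h1
  rw [e2] at h2
  rw [Complex.le_def] at h0 h1 h2
  apply Complex.ext
  · have := h2.2
    have h00 := h0.2
    simp at this h00 ⊢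
    linarith
  · have := h1.2
    have h00 := h0.2
    simp at this h00 ⊢
    linarith

theorem IsTrState.norm_le {A : Type} [CStarAlgebra A] {f : A →ₗ[ℂ] ℂ} (hf : IsTrState f) (a : A) :
    ‖f a‖ ≤ ‖a‖ := by
  let _ := CStarAlgebra.spectralOrder A
  let _ := CStarAlgebra.spectralOrderedRing A
  -- step 1: `‖f a‖² ≤ re f (a* a)`
  have h1 : ‖f a‖ ^ 2 ≤ (f (star a * a)).re := by
    have h := hf.pos (a - (f a) • (1 : A))
    have e : star (a - (f a) • (1 : A)) * (a - (f a) • (1 : A)) =
        star a * a - (f a) • star a - (star (f a)) • a + ((star (f a)) * f a) • (1 : A) := by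
      rw [star_sub, star_smul, star_one, sub_mul, mul_sub, mul_sub]
      simp only [mul_smul_comm, smul_mul_assoc, mul_one, one_mul, smul_smul]
      rw [mul_comm (f a) (star (f a))]
      abel
    rw [e, map_add, map_sub, map_sub, map_smul, map_smul, map_smul, hf.one, hf.map_star] at h
    simp only [smul_eq_mul, mul_one] at h
    have e3 : f (star a * a) - f a * star (f a) - star (f a) * f a + star (f a) * f a =
        f (star a * a) - ((‖f a‖ ^ 2 : ℝ) : ℂ) := by
      have : f a * star (f a) = ((‖f a‖ ^ 2 : ℝ) : ℂ) := by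
        rw [Complex.star_def, Complex.mul_conj, Complex.normSq_eq_norm_sq]
      rw [this]; ring
    rw [e3, Complex.le_def] at h
    have := h.1
    rw [Complex.zero_re, Complex.sub_re, Complex.ofReal_re] at this
    linarith
  have h2 : (f (star a * a)).re ≤ ‖a‖ ^ 2 := by
    have hle := CStarAlgebra.star_mul_le_algebraMap_norm_sq (a := a)
    obtain ⟨b, hb⟩ := (CStarAlgebra.nonneg_iff_eq_star_mul_self).1 (sub_nonneg.2 hle)
    have h := hf.pos b
    rw [← hb, map_sub, Algebra.algebraMap_eq_smul_one] at h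
    have e : f ((‖a‖ ^ 2 : ℝ) • (1 : A)) = ((‖a‖ ^ 2 : ℝ) : ℂ) := by
      have : ((‖a‖ ^ 2 : ℝ) • (1 : A)) = (((‖a‖ ^ 2 : ℝ) : ℂ) • (1 : A)) := by
        rw [Complex.coe_smul]
      rw [this, map_smul, hf.one, smul_eq_mul, mul_one]
    rw [e, Complex.le_def] at h
    have := h.1
    rw [Complex.zero_re, Complex.sub_re, Complex.ofReal_re] at this
    linarith
  exact (sq_le_sq₀ (norm_nonneg _) (norm_nonneg _)).1 (h1.trans h2)

theorem tr_step (S : Sys) (n : ℕ) (f : S.A (n + 1) →ₗ[ℂ] ℂ) (hf : IsTrState f) :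
    ∃ g : S.A n →ₗ[ℂ] ℂ, IsTrState g ∧ ∀ a, f (S.phi n a) =
      ((S.c n : ℂ) / (2 * S.c n + 1)) * g a +
        ((S.c n + 1 : ℂ) / (2 * S.c n + 1)) * ((S.ev n a).tr / Fintype.card (S.J n)) := by
  have hc0 : (0 : ℝ) < S.c n := by exact_mod_cast S.c_pos n
  have hcne : (S.c n : ℂ) ≠ 0 := by exact_mod_cast hc0.ne'
  have h2c : (2 * (S.c n : ℂ) + 1) ≠ 0 := by exact_mod_cast (by positivity : (2 * (S.c n : ℝ) + 1) ≠ 0)
  have hJ : (Fintype.card (S.J n) : ℂ) ≠ 0 := by
    exact_mod_cast (Fintype.card_pos (α := S.J n)).ne'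
  have htr := S.trace_β n f hf.comm hf.one
  have hsum1 : ∑ i, f (S.α n i 1) + ∑ t, f (S.β n t 1) = 1 := by
    rw [← map_sum, ← map_sum, ← map_add, S.sum_one n, hf.one]
  have hβ1 : ∑ t, f (S.β n t 1) = (S.c n + 1 : ℂ) / (2 * S.c n + 1) := by
    have h1 : (Mx.tr (1 : Mx (S.J n))) = Fintype.card (S.J n) := by
      have hd : ∀ j : S.J n, (1 : Mx (S.J n)) j j = 1 := fun j => by
        rw [CStarMatrix.one_apply_eq]
      simp only [Mx.tr, hd, Finset.sum_const, Finset.card_univ, nsmul_eq_mul, mul_one]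
    simp only [htr, h1, Finset.sum_const, Finset.card_univ, Fintype.card_option, Fintype.card_fin,
      nsmul_eq_mul]
    push_cast
    field_simp
  have hα1 : ∑ i, f (S.α n i 1) = (S.c n : ℂ) / (2 * S.c n + 1) := by
    rw [hβ1] at hsum1
    have : ∑ i, f (S.α n i 1) = 1 - (S.c n + 1 : ℂ) / (2 * S.c n + 1) :=
      eq_sub_of_add_eq hsum1
    rw [this]
    field_simp
    ring
  let g : S.A n →ₗ[ℂ] ℂ :=
    { toFun := fun a => ((2 * S.c n + 1 : ℂ) / S.c n) * ∑ i, f (S.α n i a)
      map_add' := by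
        intro a b
        simp only [map_add, Finset.sum_add_distrib]
        ring
      map_smul' := by
        intro r a
        simp only [map_smul, smul_eq_mul, RingHom.id_apply, ← Finset.mul_sum]
        ring }
  have hg : ∀ a, g a = ((2 * S.c n + 1 : ℂ) / S.c n) * ∑ i, f (S.α n i a) := fun a => rfl
  refine ⟨g, ⟨?_, ?_, ?_⟩, ?_⟩
  · intro a
    rw [hg]
    apply mul_nonneg
    · have : ((2 * S.c n + 1 : ℂ) / S.c n) = (((2 * S.c n + 1) / S.c n : ℝ) : ℂ) := by
        push_cast; ring
      rw [this]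
      exact_mod_cast (by positivity : (0 : ℝ) ≤ (2 * S.c n + 1) / S.c n)
    · apply Finset.sum_nonneg
      intro i _
      rw [map_mul, map_star]
      exact hf.pos _
  · rw [hg, hα1]
    field_simp
  · intro a b
    rw [hg, hg]
    congr 1
    refine Finset.sum_congr rfl fun i _ => ?_
    rw [map_mul (S.α n i), map_mul (S.α n i)]
    exact hf.comm _ _
  · intro a
    rw [S.phi_apply, map_add, map_sum, map_sum, hg]
    have e2 : ∑ t, f (S.β n t (S.ev n a)) =
        ((S.c n + 1 : ℂ) / (2 * S.c n + 1)) * ((S.ev n a).tr / Fintype.card (S.J n)) := by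
      simp only [htr, Finset.sum_const, Finset.card_univ, Fintype.card_option, Fintype.card_fin,
        nsmul_eq_mul]
      push_cast
      field_simp
    rw [e2]
    congr 1
    field_simp

theorem tr_diff (S : Sys) (n k : ℕ) (f g : S.A (n + k) →ₗ[ℂ] ℂ) (hf : IsTrState f)
    (hg : IsTrState g) (a : S.A n) :
    ‖f (S.iter n k a) - g (S.iter n k a)‖ ≤ (1 / 2 : ℝ) ^ k * (2 * ‖a‖) := by
  induction k with
  | zero =>
    change ‖f a - g a‖ ≤ _
    have h := norm_sub_le (f a) (g a)
    have h1 := hf.norm_le a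
    have h2 := hg.norm_le a
    rw [pow_zero, one_mul]
    linarith
  | succ k ih =>
    obtain ⟨f', hf', hff⟩ := tr_step S (n + k) f hf
    obtain ⟨g', hg', hgg⟩ := tr_step S (n + k) g hg
    have e : f (S.iter n (k + 1) a) - g (S.iter n (k + 1) a) =
        ((S.c (n + k) : ℂ) / (2 * S.c (n + k) + 1)) *
          (f' (S.iter n k a) - g' (S.iter n k a)) := by
      change f (S.phi (n + k) (S.iter n k a)) - g (S.phi (n + k) (S.iter n k a)) = _
      rw [hff, hgg]
      ring
    rw [e, norm_mul]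
    have h1 := ih f' g' hf' hg'
    have hc0 : (0 : ℝ) < S.c (n + k) := by exact_mod_cast S.c_pos (n + k)
    have h2 : ‖((S.c (n + k) : ℂ) / (2 * S.c (n + k) + 1))‖ ≤ 1 / 2 := by
      have : ((S.c (n + k) : ℂ) / (2 * S.c (n + k) + 1)) =
          ((S.c (n + k) / (2 * S.c (n + k) + 1) : ℝ) : ℂ) := by
        push_cast; ring
      rw [this, Complex.norm_real, Real.norm_of_nonneg (by positivity),
        div_le_div_iff₀ (by positivity) (by norm_num)]
      linarith
    calc ‖((S.c (n + k) : ℂ) / (2 * S.c (n + k) + 1))‖ * ‖f' (S.iter n k a) - g' (S.iter n k a)‖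
        ≤ (1 / 2) * ((1 / 2 : ℝ) ^ k * (2 * ‖a‖)) :=
          mul_le_mul h2 h1 (norm_nonneg _) (by norm_num)
      _ = (1 / 2 : ℝ) ^ (k + 1) * (2 * ‖a‖) := by ring

variable {S : Sys} {B : Type} [CStarAlgebra B]

theorem trace_unique (L : Lim S B) (f g : WeakDual ℂ B) (hf : f ∈ tracialStates B)
    (hg : g ∈ tracialStates B) : f = g := by
  have key : ∀ h : WeakDual ℂ B, h ∈ tracialStates B → ∀ m,
      ∃ F : S.A m →ₗ[ℂ] ℂ, IsTrState F ∧ ∀ a, F a = h (L.ι m a) := by
    intro h hh m
    refine ⟨{ toFun := fun a => h (L.ι m a)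
              map_add' := by intro a b; simp only [map_add]
              map_smul' := by intro r a; simp only [map_smul, RingHom.id_apply] },
            ⟨?_, ?_, ?_⟩, fun a => rfl⟩
    · intro a
      change 0 ≤ h (L.ι m (star a * a))
      rw [map_mul, map_star]
      exact hh.1 _
    · change h (L.ι m 1) = 1
      rw [map_one]
      exact hh.2.1
    · intro a b
      change h (L.ι m (a * b)) = h (L.ι m (b * a))
      rw [map_mul (L.ι m), map_mul (L.ι m)]
      exact hh.2.2 _ _
  have hrange : ∀ n a, f (L.ι n a) = g (L.ι n a) := by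
    intro n a
    have hle : ∀ k : ℕ, ‖f (L.ι n a) - g (L.ι n a)‖ ≤ (1 / 2 : ℝ) ^ k * (2 * ‖a‖) := by
      intro k
      obtain ⟨F, hF, hF'⟩ := key f hf (n + k)
      obtain ⟨G, hG, hG'⟩ := key g hg (n + k)
      have := tr_diff S n k F G hF hG a
      rwa [hF', hG', L.ι_iter] at this
    have hlim : Tendsto (fun k : ℕ => (1 / 2 : ℝ) ^ k * (2 * ‖a‖)) atTop (𝓝 (0 * (2 * ‖a‖))) :=
      (tendsto_pow_atTop_nhds_zero_of_lt_one (by norm_num) (by norm_num)).mul_const _
    rw [zero_mul] at hlim
    have h0 : ‖f (L.ι n a) - g (L.ι n a)‖ ≤ 0 := ge_of_tendsto' hlim hle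
    exact sub_eq_zero.1 (norm_le_zero_iff.1 h0)
  have hcf : Continuous (fun b : B => f b) := (WeakDual.toStrongDual f).continuous
  have hcg : Continuous (fun b : B => g b) := (WeakDual.toStrongDual g).continuous
  have hfun : (fun b : B => f b) = fun b => g b := by
    apply Continuous.ext_on L.dense hcf hcg
    intro b hb
    obtain ⟨s, ⟨n, rfl⟩, ⟨a, rfl⟩⟩ := hb
    exact hrange n a
  exact DFunLike.ext _ _ fun b => congrFun hfun b

end

end Pool.Agent.Helper9.VI
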