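import Pool.Agent.Helper9.VI.Abs.SR1d
import Pool.Agent.Helper9.VI.Abs.Simple
import Pool.Agent.Helper9.VI.Abs.TrUniq
import Pool.Agent.Helper9.VI.Abs.TrEx
import Pool.Agent.Helper9.VI.Abs.Gen
import Pool.Agent.Helper9.VI.Abs.GenQ
import Pool.Agent.Helper9.VI.Abs.RC

/-!
# The abstract theorem: a system gives the algebra
-/

namespace Pool.Agent.Helper9.VI

open Filter Topology
open scoped ComplexOrder ENNReal NNReal

noncomputable section

theorem of_sys (S : Sys) :
    ∃ (A : Type) (_ : CStarAlgebra A) (_ : PartialOrder A) (_ : StarOrderedRing A),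
      IsSimpleRing A ∧ StablyFinite A ∧ StableRankOne A ∧ (∃ τ, tracialStates A = {τ}) ∧
      IsClosed (Set.extremePoints ℝ (tracialStates A)) ∧ Nonempty (QuasiTrace A) ∧
      (1 / 3 : ℝ≥0∞) ≤ radiusOfComparison A := by
  obtain ⟨B, hB, ⟨L⟩⟩ := exists_lim S
  letI : PartialOrder B := CStarAlgebra.spectralOrder B
  haveI : StarOrderedRing B := CStarAlgebra.spectralOrderedRing B
  have hs := lim_simple L
  have ht := trace_exists L
  obtain ⟨τ, hτ⟩ := ht
  have hset : tracialStates B = {τ} := by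
    ext f
    exact ⟨fun hf => trace_unique L f τ hf hτ, fun hf => by rw [Set.mem_singleton_iff] at hf; rw [hf]; exact hτ⟩
  refine ⟨B, hB, inferInstance, inferInstance, hs, stablyFinite_of hs ⟨τ, hτ⟩, sr1 L, ⟨τ, hset⟩, ?_,
    quasiTrace_of ⟨τ, hτ⟩, rc_ge L⟩
  rw [hset]
  have : Set.extremePoints ℝ ({τ} : Set (WeakDual ℂ B)) = {τ} := by
    exact extremePoints_singleton
  rw [this]
  exact isClosed_singleton

end

end Pool.Agent.Helper9.VI
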