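import Pool.Agent.Helper9.VI.Abs.GA

/-!
# VI-SRA: closure properties of `GA`

PROOF.
* `GA_mul`: the closure of a submonoid of a topological monoid is a submonoid (`mem_closure_iff_seq_limit`
  or `Submonoid.topologicalClosure` of `IsUnit.submonoid`), `ι` is multiplicative.
* `GA_unit`: a *-homomorphism maps units to units.
* `GA_phi`: `ι_phi`.
* `GA_near`: if for every `ε > 0` there are `k` and `b ∈ GA L (n+k)` with `‖iter n k a - b‖ ≤ ε`, then
  `a ∈ GA L n` (closures are closed; `ι_iter`, `norm_ι`).
* `type_full`: `IsType S N k n d` with `N ≤ k` implies `d ∈ GA L n`: apply `explicit_mem_closure` in the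
  C*-algebra `S.A n` with `Z = ∑ i, e i` (a star projection: sum of orthogonal projections),
  `g i : f → e (castLE i)` from `basic_equiv`: `star (g i) * g j = star (g i) * e i * e j * g j`
  (`g = g * star g * g` for `star g * g` a projection), and transport units by `ι`.
-/

namespace Pool.Agent.Helper9.VI

open Filter Topology
open scoped ComplexOrder ENNReal NNReal

noncomputable section

variable {S : Sys} {B : Type} [CStarAlgebra B]

theorem GA_mul (L : Lim S B) {n : ℕ} {a b : S.A n} (ha : a ∈ L.GA n) (hb : b ∈ L.GA n) :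
    a * b ∈ L.GA n := by
  have h : L.ι n a * L.ι n b ∈ closure {b : B | IsUnit b} :=
    map_mem_closure₂ continuous_mul ha hb fun x hx y hy => IsUnit.mul hx hy
  change L.ι n (a * b) ∈ closure {b : B | IsUnit b}
  rwa [map_mul]

theorem GA_unit (L : Lim S B) {n : ℕ} {a : S.A n} (ha : IsUnit a) : a ∈ L.GA n :=
  subset_closure (show IsUnit (L.ι n a) from ha.map (L.ι n))

theorem GA_phi (L : Lim S B) {n : ℕ} {a : S.A n} (ha : S.phi n a ∈ L.GA (n + 1)) : a ∈ L.GA n := by
  have h : L.ι (n + 1) (S.phi n a) ∈ closure {b : B | IsUnit b} := ha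
  rw [L.ι_phi] at h
  exact h

theorem GA_near (L : Lim S B) {n : ℕ} {a : S.A n}
    (h : ∀ ε : ℝ, 0 < ε → ∃ (k : ℕ) (b : S.A (n + k)), b ∈ L.GA (n + k) ∧
      ‖S.iter n k a - b‖ ≤ ε) : a ∈ L.GA n := by
  change L.ι n a ∈ closure {b : B | IsUnit b}
  rw [Metric.mem_closure_iff]
  intro ε hε
  obtain ⟨k, b, hb, hab⟩ := h (ε / 2) (half_pos hε)
  obtain ⟨u, hu, hbu⟩ := Metric.mem_closure_iff.1 hb (ε / 2) (half_pos hε)
  refine ⟨u, hu, ?_⟩
  have h1 : dist (L.ι n a) (L.ι (n + k) b) ≤ ε / 2 := by
    rw [dist_eq_norm, ← L.ι_iter n k a, ← map_sub, L.norm_ι]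
    exact hab
  calc dist (L.ι n a) u ≤ dist (L.ι n a) (L.ι (n + k) b) + dist (L.ι (n + k) b) u :=
        dist_triangle _ _ _
    _ < ε := by linarith

/-- a partial isometry with source projection `f` satisfies `g * f = g` -/
lemma sra_pi {C : Type} [CStarAlgebra C] {g f : C} (hf : IsStarProjection f)
    (hg : star g * g = f) : g * f = g := by
  have hsf : star f = f := hf.isSelfAdjoint
  have hff : f * f = f := hf.isIdempotentElem
  have h : star (g * f - g) * (g * f - g) = 0 := by
    rw [star_sub, star_mul, hsf, sub_mul, mul_sub, mul_sub]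
    have e1 : f * star g * (g * f) = f := by
      rw [mul_assoc, ← mul_assoc (star g), hg, hff, hff]
    have e2 : f * star g * g = f := by rw [mul_assoc, hg, hff]
    have e3 : star g * (g * f) = f := by rw [← mul_assoc, hg, hff]
    rw [e1, e2, e3, hg]
    simp
  rw [CStarRing.star_mul_self_eq_zero_iff] at h
  exact sub_eq_zero.1 h

theorem type_full (L : Lim S B) {N k n : ℕ} (hk : N ≤ k) {d : S.A n} (hd : IsType S N k n d) :
    d ∈ L.GA n := by
  obtain ⟨x, F, f, r, e, hF, hf, hx, hr, hsum, he, hee, hFe, rfl⟩ := hd.ex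
  have hfp : IsStarProjection f := S.basic_proj n f hf
  have hep : ∀ i, IsStarProjection (e i) := fun i => S.basic_proj n _ (he i)
  choose g hg1 hg2 using fun i : Fin N => S.basic_equiv n f hf (e (Fin.castLE hk i)) (he _)
  have heg : ∀ i, e (Fin.castLE hk i) * g i = g i := fun i => by
    rw [← hg2 i, mul_assoc, hg1 i]
    exact sra_pi hfp (hg1 i)
  have hne : ∀ i j : Fin N, i ≠ j → Fin.castLE hk i ≠ Fin.castLE hk j := fun i j hij h =>
    hij (Fin.castLE_injective hk h)
  have hee' : ∀ i, e i * e i = e i := fun i => (hep i).isIdempotentElem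
  have hZ : IsStarProjection (∑ i, e i) := by
    refine ⟨?_, ?_⟩
    · change (∑ i, e i) * (∑ i, e i) = ∑ i, e i
      rw [Finset.sum_mul_sum]
      refine Finset.sum_congr rfl fun i _ => ?_
      rw [Finset.sum_eq_single i (fun j _ hj => hee i j (Ne.symm hj)) (by simp)]
      exact hee' i
    · change star (∑ i, e i) = ∑ i, e i
      rw [star_sum]
      exact Finset.sum_congr rfl fun i _ => (hep i).isSelfAdjoint
  have key := explicit_mem_closure (x := x) (F := F) (Z := ∑ i, e i) (f := f) hF hZ hfp
    (by rw [Finset.mul_sum]; exact Finset.sum_eq_zero fun i _ => hFe i) hx r g hr hsum hg1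
    (fun i j hij => by
      rw [← heg i, ← heg j, star_mul, (hep (Fin.castLE hk i)).isSelfAdjoint, mul_assoc,
        ← mul_assoc (e _) (e _), hee _ _ (hne i j hij), zero_mul, mul_zero])
    (fun i => by
      rw [← heg i, ← mul_assoc, Finset.sum_mul,
        Finset.sum_eq_single (Fin.castLE hk i) (fun j _ hj => hee _ _ hj) (by simp), hee'])
  have hcont : Continuous (L.ι n) :=
    (AddMonoidHomClass.isometry_of_norm (L.ι n) (L.norm_ι n)).continuous
  exact map_mem_closure hcont key fun b hb => IsUnit.map (L.ι n) hb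

end

end Pool.Agent.Helper9.VI
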