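import Pool.Agent.Helper9.VI.Abs.GA

/-!
# VI-SRB: the step

PROOF. `A := mat`, `W` a unit of `Mx (J n)` with `‖W - A‖ < δ` (`mat_dense`), `E` from `mat_singular`
(`A E = 0`). `U = ∑ i, α n i 1 + ∑ t, β n t W` is a unit of `A (n+1)` (inverse
`∑ α n i 1 + ∑ β n t W⁻¹`, orthogonality relations and `sum_one`).
`U * (∑ i, α n i d + 1 - ∑ i, α n i 1 - β n none E)
 = ∑ i, α n i d + ∑ t, β n t W - β n none (W * E)`, and `W * E = (W - A) * E`. Hence the distance to
`phi n d = ∑ α n i d + ∑ t, β n t (ev n d)` is at most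
`‖∑ t, β n t (ev n d - A)‖ + ∑ t, ‖β n t (A - W)‖ + ‖β n none ((W - A) E)‖ ≤ ε + (c n + 2) δ`.
Here `B ↦ ∑ t, β n t B` is a (non-unital) *-homomorphism (orthogonality), so contractive.
-/

namespace Pool.Agent.Helper9.VI

open Filter Topology
open scoped ComplexOrder ENNReal NNReal

noncomputable section

/-- the sum of the embeddings `β n t` -/
def bsum68 (S : Sys) (n : ℕ) : Mx (S.J n) →⋆ₙₐ[ℂ] S.A (n + 1) where
  toFun B := ∑ t, S.β n t B
  map_smul' r B := by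
    simp only [map_smul, Finset.smul_sum, MonoidHom.id_apply]
  map_zero' := by simp only [map_zero, Finset.sum_const_zero]
  map_add' B B' := by simp only [map_add, Finset.sum_add_distrib]
  map_mul' B B' := by
    simp only [map_mul]
    rw [Finset.sum_mul_sum]
    refine Finset.sum_congr rfl fun t _ => ?_
    rw [Finset.sum_eq_single t]
    · intro s _ hs
      exact S.ββ n t s (Ne.symm hs) _ _
    · simp
  map_star' B := by simp only [map_star, star_sum]

theorem bsum68_apply (S : Sys) (n : ℕ) (B : Mx (S.J n)) : bsum68 S n B = ∑ t, S.β n t B := rfl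

theorem norm_bsum68 (S : Sys) (n : ℕ) (B : Mx (S.J n)) : ‖bsum68 S n B‖ ≤ ‖B‖ :=
  NonUnitalStarAlgHom.norm_apply_le (bsum68 S n) B

theorem norm_β68 (S : Sys) (n : ℕ) (t) (B : Mx (S.J n)) : ‖S.β n t B‖ ≤ ‖B‖ :=
  NonUnitalStarAlgHom.norm_apply_le (S.β n t) B

theorem sumα_mul68 (S : Sys) (n : ℕ) (a b : S.A n) :
    (∑ i, S.α n i a) * (∑ i, S.α n i b) = ∑ i, S.α n i (a * b) := by
  simp only [map_mul]
  rw [Finset.sum_mul_sum]
  refine Finset.sum_congr rfl fun t _ => ?_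
  rw [Finset.sum_eq_single t]
  · intro s _ hs
    exact S.αα n t s (Ne.symm hs) _ _
  · simp

theorem sumα_bsum68 (S : Sys) (n : ℕ) (a : S.A n) (B : Mx (S.J n)) :
    (∑ i, S.α n i a) * bsum68 S n B = 0 := by
  rw [bsum68_apply, Finset.sum_mul_sum]
  simp only [S.αβ, Finset.sum_const_zero]

theorem bsum_sumα68 (S : Sys) (n : ℕ) (a : S.A n) (B : Mx (S.J n)) :
    bsum68 S n B * (∑ i, S.α n i a) = 0 := by
  rw [bsum68_apply, Finset.sum_mul_sum]
  simp only [S.βα, Finset.sum_const_zero]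

theorem bsum_β68 (S : Sys) (n : ℕ) (t) (B B' : Mx (S.J n)) :
    bsum68 S n B * S.β n t B' = S.β n t (B * B') := by
  rw [bsum68_apply, Finset.sum_mul, map_mul]
  rw [Finset.sum_eq_single t]
  · intro s _ hs
    exact S.ββ n s t hs _ _
  · simp

theorem step_approx (S : Sys) (n : ℕ) (d : S.A n) (mat : Mx (S.J n)) (hmat : ¬ IsUnit mat)
    (ε : ℝ) (hd : ‖S.ev n d - mat‖ ≤ ε) (δ : ℝ) (hδ : 0 < δ) :
    ∃ (U : S.A (n + 1)) (E : Mx (S.J n)), IsUnit U ∧ IsStarProjection E ∧ E.tr = 1 ∧ mat * E = 0 ∧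
      ‖S.phi n d - U * (∑ i, S.α n i d + 1 - ∑ i, S.α n i 1 - S.β n none E)‖ ≤ ε + δ := by
  obtain ⟨W, ⟨w, hw⟩, hWn⟩ := mat_dense mat (δ / 2) (by positivity)
  obtain ⟨E, hE, hEt, hE0⟩ := mat_singular mat hmat
  have h1 : ∑ i, S.α n i 1 + bsum68 S n 1 = 1 := S.sum_one n
  have hPP : (∑ i, S.α n i 1) * (∑ i, S.α n i 1) = ∑ i, S.α n i 1 := by
    rw [sumα_mul68, mul_one]
  have hinv : ∀ B B' : Mx (S.J n), B * B' = 1 →
      (∑ i, S.α n i 1 + bsum68 S n B) * (∑ i, S.α n i 1 + bsum68 S n B') = 1 := by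
    intro B B' hBB
    rw [add_mul, mul_add, mul_add, hPP, sumα_bsum68, bsum_sumα68, ← map_mul, hBB, add_zero,
      zero_add, h1]
  refine ⟨∑ i, S.α n i 1 + bsum68 S n W, E, ?_, hE, hEt, hE0, ?_⟩
  · refine ⟨⟨∑ i, S.α n i 1 + bsum68 S n W, ∑ i, S.α n i 1 + bsum68 S n (w⁻¹ : (Mx (S.J n))ˣ),
      hinv _ _ ?_, hinv _ _ ?_⟩, rfl⟩
    · rw [← hw]
      exact w.mul_inv
    · rw [← hw]
      exact w.inv_mul
  · have hPX : (∑ i, S.α n i 1) * (∑ i, S.α n i d) = ∑ i, S.α n i d := by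
      rw [sumα_mul68, one_mul]
    have hPb : (∑ i, S.α n i 1) * S.β n none E = 0 := by
      rw [Finset.sum_mul]
      simp only [S.αβ, Finset.sum_const_zero]
    have hprod : (∑ i, S.α n i 1 + bsum68 S n W) *
        (∑ i, S.α n i d + 1 - ∑ i, S.α n i 1 - S.β n none E) =
        ∑ i, S.α n i d + bsum68 S n W - S.β n none (W * E) := by
      rw [add_mul, mul_sub, mul_sub, mul_add, mul_sub, mul_sub, mul_add, hPX, hPP, hPb, mul_one,
        mul_one, bsum_sumα68, bsum_sumα68, bsum_β68]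
      abel
    have hphi : S.phi n d = ∑ i, S.α n i d + bsum68 S n (S.ev n d) := rfl
    have hdiff : S.phi n d - (∑ i, S.α n i 1 + bsum68 S n W) *
        (∑ i, S.α n i d + 1 - ∑ i, S.α n i 1 - S.β n none E) =
        bsum68 S n (S.ev n d - mat) + bsum68 S n (mat - W) + S.β n none ((W - mat) * E) := by
      rw [hprod, hphi, map_sub, map_sub, sub_mul, hE0, sub_zero]
      abel
    rw [hdiff]
    have e1 : ‖bsum68 S n (S.ev n d - mat)‖ ≤ ε := (norm_bsum68 S n _).trans hd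
    have e2 : ‖bsum68 S n (mat - W)‖ ≤ δ / 2 := by
      refine (norm_bsum68 S n _).trans ?_
      rw [norm_sub_rev]
      exact hWn.le
    have e3 : ‖S.β n none ((W - mat) * E)‖ ≤ δ / 2 := by
      refine (norm_β68 S n none _).trans ((norm_mul_le _ _).trans ?_)
      calc ‖W - mat‖ * ‖E‖ ≤ ‖W - mat‖ * 1 :=
            mul_le_mul_of_nonneg_left (norm_star_proj E hE) (norm_nonneg _)
        _ ≤ δ / 2 := by rw [mul_one]; exact hWn.le
    have e4 := norm_add₃_le (a := bsum68 S n (S.ev n d - mat)) (b := bsum68 S n (mat - W))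
      (c := S.β n none ((W - mat) * E))
    linarith

end

end Pool.Agent.Helper9.VI
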