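import Pool.Agent.Helper9.VI.Abs.GA

/-!
# VI-SRC: the factors, and the type of the factors

PROOF.
* `prod_factors`: in a ring with orthogonal families: for a finset `T ⊆ univ`,
  `D_T = ∑ i ∈ T, α i d + 1 - ∑ i ∈ T, α i 1 - e` where `e = β none E` is idempotent and orthogonal to all
  `α i`. If `j ∉ T` then `D_T * (α j d + 1 - α j 1 - e) = D_{T ∪ j}` (expand, all cross terms
  vanish, `α j 1 * α j d = α j d`). The multiplicatively closed set `M` contains all factors, and
  `D_∅ = 1 - e`: for `T = {i}` the factor itself, so start the induction with one element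
  (`c n > 0`). So `D_univ ∈ M`.
* `type_factor`: if `d = x + 1 - F - ∑ e i` is of type `(N, k)`, then
  `α j d + 1 - α j 1 - β none E = α j x + 1 - α j F - (∑ α j (e i) + β none E)` is of type `(N, k+1)` with the
  data `α j x, α j F, α j f, α j (r i), Fin.snoc (α j (e i)) (β none E)` (`basic_α`, `basic_β`).
* `type_start`: `α j a + 1 - α j 1 - β none E` is of type `(N, 1)` if
  `∑ star (r i) * f * r i = 1` in `A n`, `f` basic (`x = α j a`, `F = α j 1`).
* `type_singular`: a type `(N, k)` element with `0 < k` is killed by the basic projection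
  `e 0` (`d * e 0 = 0`), and `ev n (e 0) ≠ 0` by `basic_full`; so `ev n d` is not a unit.
-/

namespace Pool.Agent.Helper9.VI

open Filter Topology
open scoped ComplexOrder ENNReal NNReal

noncomputable section

theorem prod_factors (S : Sys) (n : ℕ) (d : S.A n) (E : Mx (S.J n)) (hE : IsStarProjection E)
    (M : Set (S.A (n + 1))) (hM : ∀ a ∈ M, ∀ b ∈ M, a * b ∈ M)
    (h : ∀ j, S.α n j d + 1 - S.α n j 1 - S.β n none E ∈ M) :
    ∑ i, S.α n i d + 1 - ∑ i, S.α n i 1 - S.β n none E ∈ M := by
  classical
  have hee : S.β n none E * S.β n none E = S.β n none E := by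
    rw [← map_mul, hE.isIdempotentElem.eq]
  have key : ∀ T : Finset (Fin (S.c n)), T.Nonempty →
      ∑ i ∈ T, S.α n i d + 1 - ∑ i ∈ T, S.α n i 1 - S.β n none E ∈ M := by
    intro T hT
    induction hT using Finset.Nonempty.cons_induction with
    | singleton j => simpa using h j
    | cons j T hj _ ih =>
      have hne : ∀ i ∈ T, i ≠ j := fun i hi hij => hj (hij ▸ hi)
      have h1 : (∑ i ∈ T, S.α n i d) * S.α n j d = 0 := by
        rw [Finset.sum_mul]
        exact Finset.sum_eq_zero fun i hi => S.αα n i j (hne i hi) _ _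
      have h2 : (∑ i ∈ T, S.α n i d) * S.α n j 1 = 0 := by
        rw [Finset.sum_mul]
        exact Finset.sum_eq_zero fun i hi => S.αα n i j (hne i hi) _ _
      have h3 : (∑ i ∈ T, S.α n i d) * S.β n none E = 0 := by
        rw [Finset.sum_mul]
        exact Finset.sum_eq_zero fun i _ => S.αβ n i none _ _
      have h4 : (∑ i ∈ T, S.α n i 1) * S.α n j d = 0 := by
        rw [Finset.sum_mul]
        exact Finset.sum_eq_zero fun i hi => S.αα n i j (hne i hi) _ _
      have h5 : (∑ i ∈ T, S.α n i 1) * S.α n j 1 = 0 := by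
        rw [Finset.sum_mul]
        exact Finset.sum_eq_zero fun i hi => S.αα n i j (hne i hi) _ _
      have h6 : (∑ i ∈ T, S.α n i 1) * S.β n none E = 0 := by
        rw [Finset.sum_mul]
        exact Finset.sum_eq_zero fun i _ => S.αβ n i none _ _
      have h7 : S.β n none E * S.α n j d = 0 := S.βα n j none _ _
      have h8 : S.β n none E * S.α n j 1 = 0 := S.βα n j none _ _
      have hprod := hM _ ih _ (h j)
      have heq : (∑ i ∈ T, S.α n i d + 1 - ∑ i ∈ T, S.α n i 1 - S.β n none E) *
          (S.α n j d + 1 - S.α n j 1 - S.β n none E) =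
          ∑ i ∈ Finset.cons j T hj, S.α n i d + 1 - ∑ i ∈ Finset.cons j T hj, S.α n i 1
            - S.β n none E := by
        rw [Finset.sum_cons, Finset.sum_cons]
        simp only [sub_mul, add_mul, mul_sub, mul_add, h1, h2, h3, h4, h5, h6, h7, h8, hee,
          one_mul, mul_one]
        abel
      rw [heq] at hprod
      exact hprod
  exact key Finset.univ ⟨⟨0, S.c_pos n⟩, Finset.mem_univ _⟩

theorem type_factor (S : Sys) {N k n : ℕ} {d : S.A n} (hd : IsType S N k n d) (E : Mx (S.J n))
    (hE : IsStarProjection E) (hE1 : E.tr = 1) (j : Fin (S.c n)) :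
    IsType S N (k + 1) (n + 1) (S.α n j d + 1 - S.α n j 1 - S.β n none E) := by
  obtain ⟨x, F, f, r, e, hF, hf, hx, hr, hsum, he, heo, hFe, hd⟩ := hd.ex
  refine ⟨S.α n j x, S.α n j F, S.α n j f, fun i => S.α n j (r i),
    Fin.snoc (fun i => S.α n j (e i)) (S.β n none E), ?_, S.basic_α n j f hf, ?_, ?_, ?_, ?_, ?_,
    ?_, ?_⟩
  · refine ⟨?_, ?_⟩
    · change S.α n j F * S.α n j F = S.α n j F
      rw [← map_mul, hF.isIdempotentElem.eq]
    · change star (S.α n j F) = S.α n j F
      rw [← map_star, hF.isSelfAdjoint.star_eq]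
  · rw [← map_mul, ← map_mul, hx]
  · intro i
    rw [← map_mul, hr i]
  · rw [← hsum, map_sum]
    refine Finset.sum_congr rfl fun i _ => ?_
    rw [map_mul, map_mul, map_star]
  · intro i
    refine Fin.lastCases ?_ (fun i => ?_) i
    · rw [Fin.snoc_last]
      exact S.basic_β n E hE hE1
    · rw [Fin.snoc_castSucc]
      exact S.basic_α n j _ (he i)
  · intro i
    refine Fin.lastCases ?_ (fun i => ?_) i
    · intro l
      refine Fin.lastCases ?_ (fun l => ?_) l
      · intro hne
        exact absurd rfl hne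
      · intro _
        rw [Fin.snoc_last, Fin.snoc_castSucc]
        exact S.βα n j none _ _
    · intro l
      refine Fin.lastCases ?_ (fun l => ?_) l
      · intro _
        rw [Fin.snoc_last, Fin.snoc_castSucc]
        exact S.αβ n j none _ _
      · intro hne
        rw [Fin.snoc_castSucc, Fin.snoc_castSucc, ← map_mul, heo i l, map_zero]
        intro hil
        exact hne (by rw [hil])
  · intro i
    refine Fin.lastCases ?_ (fun i => ?_) i
    · rw [Fin.snoc_last]
      exact S.αβ n j none _ _
    · rw [Fin.snoc_castSucc, ← map_mul, hFe i, map_zero]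
  · rw [Fin.sum_univ_castSucc]
    simp only [Fin.snoc_castSucc, Fin.snoc_last]
    rw [hd, map_sub, map_sub, map_add, map_sum]
    abel

theorem type_start (S : Sys) {N n : ℕ} (a f : S.A n) (r : Fin N → S.A n) (hf : f ∈ S.basic n)
    (hr : ∑ i, star (r i) * f * r i = 1) (E : Mx (S.J n))
    (hE : IsStarProjection E) (hE1 : E.tr = 1) (j : Fin (S.c n)) :
    IsType S N 1 (n + 1) (S.α n j a + 1 - S.α n j 1 - S.β n none E) := by
  refine ⟨S.α n j a, S.α n j 1, S.α n j f, fun i => S.α n j (r i), fun _ => S.β n none E,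
    ?_, S.basic_α n j f hf, ?_, ?_, ?_, ?_, ?_, ?_, ?_⟩
  · refine ⟨?_, ?_⟩
    · change S.α n j 1 * S.α n j 1 = S.α n j 1
      rw [← map_mul, mul_one]
    · change star (S.α n j 1) = S.α n j 1
      rw [← map_star, star_one]
  · rw [← map_mul, ← map_mul, one_mul, mul_one]
  · intro i
    rw [← map_mul, mul_one]
  · rw [← hr, map_sum]
    refine Finset.sum_congr rfl fun i _ => ?_
    rw [map_mul, map_mul, map_star]
  · intro _
    exact S.basic_β n E hE hE1
  · intro i l hne
    exact absurd (Subsingleton.elim i l) hne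
  · intro _
    exact S.αβ n j none _ _
  · simp

theorem type_singular (S : Sys) {N k n : ℕ} (hk : 0 < k) {d : S.A n} (hd : IsType S N k n d) :
    ¬ IsUnit (S.ev n d) := by
  obtain ⟨x, F, f, r, e, hF, hf, hx, hr, hsum, he, heo, hFe, hd⟩ := hd.ex
  intro hu
  set e0 := e ⟨0, hk⟩ with he0
  have hsume : (∑ i, e i) * e0 = e0 := by
    rw [Finset.sum_mul, Finset.sum_eq_single (⟨0, hk⟩ : Fin k)]
    · exact (S.basic_proj n _ (he _)).isIdempotentElem.eq
    · intro i _ hne
      exact heo i _ hne
    · intro hne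
      exact absurd (Finset.mem_univ _) hne
  have hxe : x * e0 = 0 := by
    rw [← hx, mul_assoc, hFe, mul_zero]
  have hde : d * e0 = 0 := by
    rw [hd, sub_mul, sub_mul, add_mul, hxe, hsume, hFe, one_mul]
    abel
  have hev : S.ev n e0 = 0 := by
    have h1 : S.ev n d * S.ev n e0 = 0 := by rw [← map_mul, hde, map_zero]
    exact (hu.mul_right_eq_zero).1 h1
  obtain ⟨m, q, hq⟩ := S.basic_full n e0 (he _)
  have h1 : (1 : Mx (S.J n)) = 0 := by
    have := congrArg (S.ev n) hq
    rw [map_one, map_sum] at this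
    rw [← this]
    refine Finset.sum_eq_zero fun i _ => ?_
    rw [map_mul, map_mul, hev, mul_zero, zero_mul]
  obtain ⟨j⟩ := S.ne n
  have h2 := congrFun (congrFun h1 j) j
  have h3 : (1 : Mx (S.J n)) j j = 1 := by
    change (1 : Matrix (S.J n) (S.J n) ℂ) j j = 1
    simp
  rw [h3] at h2
  exact one_ne_zero h2

end

end Pool.Agent.Helper9.VI
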