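import Pool.Agent.Helper9.VI.Abs.GA

/-!
# VI-SRD2: matrices far from the singular matrices, and `singular_near`
-/

namespace Pool.Agent.Helper9.VI

open Filter Topology
open scoped ComplexOrder ENNReal NNReal InnerProductSpace

noncomputable section

theorem op_far47 {H : Type} [NormedAddCommGroup H] [InnerProductSpace ℂ H] [CompleteSpace H]
    (T : H →L[ℂ] H) (ε : ℝ) (hε : 0 ≤ ε) (h : ∀ v, ε * ‖v‖ ≤ ‖T v‖) (m : ℝ)
    (hm : ‖T‖ ^ 2 ≤ m) (hεm : ε ^ 2 ≤ m) :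
    ‖(m : ℂ) • (1 : H →L[ℂ] H) - star T * T‖ ≤ m - ε ^ 2 := by
  have hsa : IsSelfAdjoint (star T * T) := IsSelfAdjoint.star_mul_self T
  have hre : ∀ (c : ℝ), IsSelfAdjoint ((c : ℂ) • (1 : H →L[ℂ] H)) := by
    intro c
    rw [isSelfAdjoint_iff, star_smul, star_one]
    simp
  have hin : ∀ (c : ℝ) (x : H), ((c : ℂ) • (1 : H →L[ℂ] H)).reApplyInnerSelf x = c * ‖x‖ ^ 2 := by
    intro c x
    rw [ContinuousLinearMap.reApplyInnerSelf_apply, ContinuousLinearMap.smul_apply,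
      ContinuousLinearMap.one_apply, inner_smul_left, Complex.conj_ofReal, RCLike.re_eq_complex_re,
      Complex.re_ofReal_mul, ← RCLike.re_eq_complex_re, inner_self_eq_norm_sq]
  have hin2 : ∀ x : H, (star T * T).reApplyInnerSelf x = ‖T x‖ ^ 2 := by
    intro x
    rw [ContinuousLinearMap.reApplyInnerSelf_apply, ContinuousLinearMap.mul_apply,
      ContinuousLinearMap.star_eq_adjoint, ContinuousLinearMap.adjoint_inner_left,
      inner_self_eq_norm_sq]
  have h0 : 0 ≤ (m : ℂ) • (1 : H →L[ℂ] H) - star T * T := by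
    rw [ContinuousLinearMap.nonneg_iff_isPositive, ContinuousLinearMap.isPositive_def']
    refine ⟨(hre m).sub hsa, fun x => ?_⟩
    have e : ((m : ℂ) • (1 : H →L[ℂ] H) - star T * T).reApplyInnerSelf x =
        ((m : ℂ) • (1 : H →L[ℂ] H)).reApplyInnerSelf x - (star T * T).reApplyInnerSelf x := by
      simp only [ContinuousLinearMap.reApplyInnerSelf_apply, ContinuousLinearMap.sub_apply,
        inner_sub_left, map_sub]
    rw [e, hin, hin2]
    have h1 := T.le_opNorm x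
    have h2 : ‖T x‖ ^ 2 ≤ (‖T‖ * ‖x‖) ^ 2 := pow_le_pow_left₀ (norm_nonneg _) h1 2
    rw [mul_pow] at h2
    nlinarith [sq_nonneg ‖x‖]
  rw [CStarAlgebra.norm_le_iff_le_algebraMap _ (by linarith) h0]
  have halg : algebraMap ℝ (H →L[ℂ] H) (m - ε ^ 2) = ((m - ε ^ 2 : ℝ) : ℂ) • (1 : H →L[ℂ] H) := by
    rw [Algebra.algebraMap_eq_smul_one]
    rfl
  rw [halg, ← sub_nonneg]
  have e2 : ((m - ε ^ 2 : ℝ) : ℂ) • (1 : H →L[ℂ] H) - ((m : ℂ) • (1 : H →L[ℂ] H) - star T * T) =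
      star T * T - ((ε ^ 2 : ℝ) : ℂ) • (1 : H →L[ℂ] H) := by
    push_cast
    rw [sub_smul]
    abel
  rw [e2, ContinuousLinearMap.nonneg_iff_isPositive, ContinuousLinearMap.isPositive_def']
  refine ⟨hsa.sub (hre _), fun x => ?_⟩
  have e : (star T * T - ((ε ^ 2 : ℝ) : ℂ) • (1 : H →L[ℂ] H)).reApplyInnerSelf x =
      (star T * T).reApplyInnerSelf x -
        (((ε ^ 2 : ℝ) : ℂ) • (1 : H →L[ℂ] H)).reApplyInnerSelf x := by
    simp only [ContinuousLinearMap.reApplyInnerSelf_apply, ContinuousLinearMap.sub_apply,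
      inner_sub_left, map_sub]
  rw [e, hin, hin2]
  have h1 := h x
  have h2 : (ε * ‖x‖) ^ 2 ≤ ‖T x‖ ^ 2 := pow_le_pow_left₀ (by positivity) h1 2
  rw [mul_pow] at h2
  linarith

/-- removing the direction `v` makes a matrix singular -/
theorem mat_vec47 {J : Type} [Fintype J] [DecidableEq J] (C : Mx J) (ε : ℝ)
    (h : ∀ mat : Mx J, ‖C - mat‖ ≤ ε → IsUnit mat) (v : EuclideanSpace ℂ J) (hv : ‖v‖ = 1) :
    ε ≤ ‖matPhi97 C v‖ := by
  by_contra hcon
  push Not at hcon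
  have hsum := sum_of_norm97 v hv
  set E : Mx J := rk97 v v with hE
  have hEE : E * E = E := (rk97_proj _ hsum).1
  have hE0 : E ≠ 0 := by
    intro h0
    have := tr_rk97 _ hsum
    rw [← hE, h0] at this
    simp [Mx.tr] at this
  have hu : ¬ IsUnit (C - C * E) := by
    intro hu
    apply hE0
    have h1 : (C - C * E) * E = 0 := by rw [sub_mul, mul_assoc, hEE, sub_self]
    exact (hu.mul_right_eq_zero).1 h1
  apply hu
  apply h
  rw [sub_sub_cancel]
  rw [← norm_matPhi97]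
  refine (ContinuousLinearMap.opNorm_le_bound _ (norm_nonneg (matPhi97 C v)) fun x => ?_).trans
    hcon.le
  have h2 : matPhi97 (C * E) x = (⟪v, x⟫_ℂ) • matPhi97 C v := by
    rw [map_mul, ContinuousLinearMap.mul_apply]
    have h3 : matPhi97 E x = (⟪v, x⟫_ℂ) • v := by
      ext i
      rw [matPhi97_apply]
      simp only [hE, rk97_apply]
      rw [PiLp.smul_apply, smul_eq_mul, PiLp.inner_apply, Finset.sum_mul]
      apply Finset.sum_congr rfl
      intro k _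
      simp only [RCLike.inner_apply, starRingEnd_apply]
      ring
    rw [h3, map_smul]
  rw [h2, norm_smul, mul_comm]
  gcongr
  have := norm_inner_le_norm (𝕜 := ℂ) v x
  rwa [hv, one_mul] at this

theorem mat_far1 {J : Type} [Fintype J] [DecidableEq J] [Nonempty J] (C : Mx J) (ε : ℝ)
    (hε : 0 < ε) (h : ∀ mat : Mx J, ‖C - mat‖ ≤ ε → IsUnit mat) (m : ℝ)
    (hm : ‖C‖ ^ 2 ≤ m) :
    ‖(m : ℂ) • (1 : Mx J) - star C * C‖ ≤ m - ε ^ 2 := by
  have hv : ∀ v : EuclideanSpace ℂ J, ε * ‖v‖ ≤ ‖matPhi97 C v‖ := by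
    intro v
    by_cases hv0 : v = 0
    · rw [hv0, norm_zero, mul_zero]; exact norm_nonneg _
    · have hn : ‖v‖ ≠ 0 := norm_ne_zero_iff.2 hv0
      have h1 := mat_vec47 C ε h (((‖v‖ : ℂ)⁻¹) • v) (by
        rw [norm_smul, norm_inv, Complex.norm_real, norm_norm, inv_mul_cancel₀ hn])
      rw [map_smul, norm_smul, norm_inv, Complex.norm_real, norm_norm] at h1
      have h2 : 0 < ‖v‖ := norm_pos_iff.2 hv0
      rwa [← div_eq_inv_mul, le_div_iff₀ h2] at h1
  have hεm : ε ^ 2 ≤ m := by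
    obtain ⟨j⟩ := (inferInstance : Nonempty J)
    have h1 := hv (EuclideanSpace.single j 1)
    have h2 := (matPhi97 C).le_opNorm (EuclideanSpace.single j 1)
    have h3 : ‖(EuclideanSpace.single j (1 : ℂ) : EuclideanSpace ℂ J)‖ = 1 := by simp
    rw [h3, mul_one] at h1 h2
    rw [norm_matPhi97] at h2
    have h4 : ε ≤ ‖C‖ := h1.trans h2
    exact (pow_le_pow_left₀ hε.le h4 2).trans hm
  have h1 := op_far47 (matPhi97 C) ε hε.le hv m (by rwa [norm_matPhi97]) hεm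
  have h2 : (m : ℂ) • (1 : EuclideanSpace ℂ J →L[ℂ] EuclideanSpace ℂ J) -
      star (matPhi97 C) * matPhi97 C = matPhi97 ((m : ℂ) • (1 : Mx J) - star C * C) := by
    rw [map_sub, map_smul, map_one, map_mul, map_star]
  rwa [h2, norm_matPhi97] at h1

theorem norm_star47 {J : Type} [Fintype J] [DecidableEq J] (C : Mx J) : ‖star C‖ = ‖C‖ := by
  rw [← norm_matPhi97, map_star, ContinuousLinearMap.star_eq_adjoint,
    LinearIsometryEquiv.norm_map, norm_matPhi97]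

theorem mat_far {J : Type} [Fintype J] [DecidableEq J] [Nonempty J] (C : Mx J) (ε : ℝ)
    (hε : 0 < ε) (h : ∀ mat : Mx J, ‖C - mat‖ ≤ ε → IsUnit mat) (m : ℝ)
    (hm : ‖C‖ ^ 2 ≤ m) :
    ‖(m : ℂ) • (1 : Mx J) - star C * C‖ ≤ m - ε ^ 2 ∧
      ‖(m : ℂ) • (1 : Mx J) - C * star C‖ ≤ m - ε ^ 2 := by
  refine ⟨mat_far1 C ε hε h m hm, ?_⟩
  have h1 := mat_far1 (star C) ε hε (fun mat hmat => ?_) m (by rwa [norm_star47])
  · rwa [star_star] at h1
  · have h2 := h (star mat) (by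
      rw [← norm_star47, star_sub, star_star]; exact hmat)
    have h3 := h2.star
    rwa [star_star] at h3

theorem singular_near (S : Sys) {n : ℕ} (a : S.A n) (ha : ¬ IsUnit a) (ε : ℝ) (hε : 0 < ε) :
    ∃ (k : ℕ) (mat : Mx (S.J (n + k))), ¬ IsUnit mat ∧ ‖S.ev (n + k) (S.iter n k a) - mat‖ ≤ ε := by
  by_contra hcon
  push Not at hcon
  have hcon' : ∀ (k : ℕ) (mat : Mx (S.J (n + k))), ‖S.ev (n + k) (S.iter n k a) - mat‖ ≤ ε →
      IsUnit mat := by
    intro k mat hmat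
    by_contra hu
    exact absurd hmat (not_le.2 (hcon k mat hu))
  apply ha
  have hC : ∀ k, ‖S.ev (n + k) (S.iter n k a)‖ ^ 2 ≤ ‖a‖ ^ 2 := by
    intro k
    apply pow_le_pow_left₀ (norm_nonneg _)
    exact (NonUnitalStarAlgHom.norm_apply_le (S.ev (n + k)) _).trans
      (NonUnitalStarAlgHom.norm_apply_le (S.iter n k) a)
  have key : ∀ x : S.A n, (∀ k, ‖S.ev (n + k) (S.iter n k (((‖a‖ ^ 2 : ℝ) : ℂ) • 1 - x))‖ ≤
      ‖a‖ ^ 2 - ε ^ 2) → IsUnit x := by
    intro x hx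
    have h1 : ‖((‖a‖ ^ 2 : ℝ) : ℂ) • 1 - x‖ ≤ ‖a‖ ^ 2 - ε ^ 2 := by
      apply le_of_forall_pos_le_add
      intro δ hδ
      obtain ⟨k, hk⟩ := S.norm_ev n (((‖a‖ ^ 2 : ℝ) : ℂ) • 1 - x) δ hδ
      have := hx k
      linarith
    have hpos : 0 < ‖a‖ ^ 2 := by
      have h2 := norm_nonneg (((‖a‖ ^ 2 : ℝ) : ℂ) • (1 : S.A n) - x)
      have h3 : 0 < ε ^ 2 := by positivity
      linarith
    have hne : ((‖a‖ ^ 2 : ℝ) : ℂ) ≠ 0 := by exact_mod_cast hpos.ne'
    set c : ℂ := ((‖a‖ ^ 2 : ℝ) : ℂ) with hc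
    set y : S.A n := c⁻¹ • (c • 1 - x) with hy
    have hy1 : ‖y‖ < 1 := by
      rw [hy, norm_smul, norm_inv, hc, Complex.norm_real, Real.norm_of_nonneg hpos.le,
        inv_mul_lt_iff₀ hpos, mul_one]
      have h3 : 0 < ε ^ 2 := by positivity
      linarith
    have hu := isUnit_one_sub_of_norm_lt_one hy1
    have e1 : (1 : S.A n) - y = c⁻¹ • x := by
      rw [hy, smul_sub, smul_smul, inv_mul_cancel₀ hne, one_smul, sub_sub_cancel]
    rw [e1] at hu
    have e2 : x = c • (c⁻¹ • x) := by rw [smul_smul, mul_inv_cancel₀ hne, one_smul]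
    rw [e2]
    have e3 : c • (c⁻¹ • x) = (Units.mk0 c hne) • (c⁻¹ • x) := rfl
    rw [e3]
    exact hu.smul _
  have hmap : ∀ (k : ℕ) (x y : S.A n), S.ev (n + k) (S.iter n k (((‖a‖ ^ 2 : ℝ) : ℂ) • 1 - x * y)) =
      ((‖a‖ ^ 2 : ℝ) : ℂ) • (1 : Mx (S.J (n + k))) -
        S.ev (n + k) (S.iter n k x) * S.ev (n + k) (S.iter n k y) := by
    intro k x y
    rw [map_sub, map_sub, map_smul, map_smul, map_one, map_one, map_mul, map_mul]
  have hu1 : IsUnit (star a * a) := by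
    apply key
    intro k
    rw [hmap, map_star, map_star]
    exact (mat_far _ ε hε (hcon' k) _ (hC k)).1
  have hu2 : IsUnit (a * star a) := by
    apply key
    intro k
    rw [hmap, map_star, map_star]
    exact (mat_far _ ε hε (hcon' k) _ (hC k)).2
  obtain ⟨u, hu⟩ := hu1
  obtain ⟨w, hw⟩ := hu2
  refine isUnit_iff_exists_and_exists.2 ⟨⟨star a * ↑w⁻¹, ?_⟩, ⟨↑u⁻¹ * star a, ?_⟩⟩
  · rw [← mul_assoc, ← hw, Units.mul_inv]
  · rw [mul_assoc, ← hu, Units.inv_mul]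

end

end Pool.Agent.Helper9.VI
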