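import Pool.Agent.Helper9.VI.Abs.SR1a
import Pool.Agent.Helper9.VI.Abs.SR1b
import Pool.Agent.Helper9.VI.Abs.SR1c
import Pool.Agent.Helper9.VI.Abs.SR1e

/-!
# VI-SRD: stable rank one

PROOF.
* `type_mem_GA`: every element of type `(N, k)`, `k ≥ 1`, is in `GA`. Induction on `N - k` (for all
  `n`, `d`). `N ≤ k`: `type_full`. Otherwise `ev n d` is singular (`type_singular`), `step_approx` with
  `mat = ev n d`, `ε = 0`; the bracket is in `GA` by `prod_factors` (`M = GA`, `GA_mul`), its
  factors by `type_factor` and induction; `U` by `GA_unit`. So `phi n d` is within `δ` of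
  `GA L (n+1)` for all `δ`: `GA_near` (with `k = 1`, `iter n 1 = phi n ∘ id`).
* `singular_near`: if `a ∈ A n` is not a unit, then for each `ε > 0` there are `k` and a non-unit `mat` with
  `‖ev (n+k) (iter n k a) - mat‖ ≤ ε`. Suppose not. For a matrix `C = ev (iter a)` this says (with the
  singular value decomposition, or: if `C* C - ε²` is not positive, there is a unit vector `v` with
  `‖C v‖ < ε`, and `mat = C - C v v*` is singular at distance `‖C v‖ ≤ ε`) `C* C ≥ ε²` and `C C* ≥ ε²`. For
  `h = star a * a`, `m = ‖h‖`: `‖ev (iter (m - h))‖ ≤ m - ε²` for all `k` (self-adjoint matrix with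
  spectrum in `[0, m - ε²]`), so `‖m - h‖ ≤ m - ε²` by `norm_ev`, so `h = m - (m - h)` is a unit
  (`ε > 0`, also if `m = 0`); same for `a * star a`. So `a` is left and right invertible: a unit.
* `sr1`: for `a ∈ A n`: `a` unit: done. Otherwise `ε > 0`, `k`, `mat` as in `singular_near`; apply
  `step_approx` at level `n + k` to `iter n k a`; the factors are of type `(N, 1)` by `type_start` with
  `f ∈ basic`, `basic_full`; so `phi (iter n k a) = iter n (k+1) a` is within `2 ε` of `GA L (n+k+1)`. `GA_near`.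
  Density: `Lim.dense`, closure of units is closed.
-/

namespace Pool.Agent.Helper9.VI

open Filter Topology
open scoped ComplexOrder ENNReal NNReal

noncomputable section

variable {S : Sys} {B : Type} [CStarAlgebra B]

theorem type_mem_GA (L : Lim S B) {N k n : ℕ} (hk : 0 < k) {d : S.A n} (hd : IsType S N k n d) :
    d ∈ L.GA n := by
  obtain ⟨m, hm⟩ : ∃ m, m = N - k := ⟨_, rfl⟩
  induction m generalizing k n d with
  | zero => exact type_full L (by omega) hd
  | succ m ih =>
    refine GA_near L fun δ hδ => ?_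
    obtain ⟨U, E, hU, hE, hE1, -, hnorm⟩ :=
      step_approx S n d (S.ev n d) (type_singular S hk hd) 0 (by simp) δ hδ
    refine ⟨1, U * (∑ i, S.α n i d + 1 - ∑ i, S.α n i 1 - S.β n none E), ?_, ?_⟩
    · exact GA_mul L (GA_unit L hU) (prod_factors S n d E hE (L.GA (n + 1))
        (fun a ha b hb => GA_mul L ha hb)
        (fun j => ih (Nat.succ_pos k) (type_factor S hd E hE hE1 j) (by omega)))
    · change ‖S.phi n d - U * (∑ i, S.α n i d + 1 - ∑ i, S.α n i 1 - S.β n none E)‖ ≤ δ
      rwa [zero_add] at hnorm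

theorem sr1 (L : Lim S B) : StableRankOne B := by
  have hGA : ∀ (n : ℕ) (a : S.A n), a ∈ L.GA n := by
    intro n a
    by_cases ha : IsUnit a
    · exact GA_unit L ha
    refine GA_near L fun ε hε => ?_
    obtain ⟨k, mat, hmat, hk⟩ := singular_near S a ha (ε / 2) (half_pos hε)
    obtain ⟨U, E, hU, hE, hE1, -, hnorm⟩ :=
      step_approx S (n + k) (S.iter n k a) mat hmat (ε / 2) hk (ε / 2) (half_pos hε)
    obtain ⟨f, hf⟩ := S.basic_ne (n + k)
    obtain ⟨N, r, hr⟩ := S.basic_full (n + k) f hf
    refine ⟨k + 1, U * (∑ i, S.α (n + k) i (S.iter n k a) + 1 - ∑ i, S.α (n + k) i 1 -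
      S.β (n + k) none E), ?_, ?_⟩
    · exact GA_mul L (GA_unit L hU) (prod_factors S (n + k) _ E hE (L.GA (n + k + 1))
        (fun a ha b hb => GA_mul L ha hb)
        (fun j => type_mem_GA L Nat.one_pos (type_start S _ f r hf hr E hE hE1 j)))
    · change ‖S.phi (n + k) (S.iter n k a) - U * (∑ i, S.α (n + k) i (S.iter n k a) + 1 -
        ∑ i, S.α (n + k) i 1 - S.β (n + k) none E)‖ ≤ ε
      rwa [add_halves] at hnorm
  have hsub : (⋃ n, Set.range (L.ι n)) ⊆ closure {b : B | IsUnit b} := by
    rintro _ ⟨_, ⟨n, rfl⟩, ⟨a, rfl⟩⟩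
    exact hGA n a
  intro b
  exact closure_minimal hsub isClosed_closure (L.dense b)

end

end Pool.Agent.Helper9.VI
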